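import Mathlib

/-!
# Truncated Toeplitz operators on finite dimensional model spaces: definitions

The unit circle is `ℝ / ℤ` with its normalised Haar measure, the point `t` standing for
`z = exp (2 π i t)`.
-/

set_option autoImplicit false

open MeasureTheory ComplexConjugate

namespace Pool.Agent.N293.CD

/-- The unit circle. -/
abbrev TT : Type := AddCircle (1 : ℝ)

/-- The coordinate function `z` of the unit circle. -/
noncomputable def zz (t : TT) : ℂ := fourier 1 t

/-- The scalar product `⟨f, g⟩` of `L²` of the circle (linear in `f`). -/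
noncomputable def ip (f g : TT → ℂ) : ℂ := ∫ t, f t * conj (g t) ∂AddCircle.haarAddCircle

/-- `f` is in the Hardy space `H²`: it is square integrable and its Fourier coefficients of
negative index vanish. -/
def InH2 (f : TT → ℂ) : Prop :=
  MemLp f 2 AddCircle.haarAddCircle ∧ ∀ m : ℤ, m < 0 → fourierCoeff f m = 0

/-- `B` is a finite Blaschke product of degree `n`:
`B(z) = c ∏ (z - a_i) / (1 - conj(a_i) z)` with `|c| = 1` and `n` zeros `a_i` in the unit disc. -/
def IsBlaschke (n : ℕ) (B : ℂ → ℂ) : Prop :=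
  ∃ (c : ℂ) (a : Fin n → ℂ), ‖c‖ = 1 ∧ (∀ i, ‖a i‖ < 1) ∧
    ∀ z, B z = c * ∏ i, (z - a i) / (1 - conj (a i) * z)

/-- `f` is in the model space `K_B = H² ⊖ B H²`. -/
def InModel (B : ℂ → ℂ) (f : TT → ℂ) : Prop :=
  InH2 f ∧ ∀ h, InH2 h → ip f (fun t => B (zz t) * h t) = 0

/-- `e` is an orthonormal basis of the model space `K_B`. -/
def IsONB {n : ℕ} (B : ℂ → ℂ) (e : Fin n → TT → ℂ) : Prop :=
  (∀ j, InModel B (e j)) ∧ (∀ i j, ip (e i) (e j) = if i = j then 1 else 0) ∧
    ∀ f, InModel B f → ∃ c : Fin n → ℂ, ∀ᵐ t ∂AddCircle.haarAddCircle, f t = ∑ j, c j * e j t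

/-- The matrix of the truncated Toeplitz operator `A_φ f = P(φ f)` (where `P` is the orthogonal
projection to `K_B`) with respect to an orthonormal basis `e` of `K_B`: its entry in row `i` and
column `j` is `⟨A_φ e_j, e_i⟩ = ⟨φ e_j, e_i⟩`. -/
noncomputable def matTTO {n : ℕ} (φ : TT → ℂ) (e : Fin n → TT → ℂ) : Matrix (Fin n) (Fin n) ℂ :=
  Matrix.of fun i j => ip (fun t => φ t * e j t) (e i)

/-- The matrix `M` is unitarily equivalent to a truncated Toeplitz operator: it is the matrix of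
one in some orthonormal basis of the model space. -/
def UETTO {n : ℕ} (M : Matrix (Fin n) (Fin n) ℂ) : Prop :=
  ∃ (B : ℂ → ℂ) (φ : TT → ℂ) (e : Fin n → TT → ℂ), IsBlaschke n B ∧
    MemLp φ ⊤ AddCircle.haarAddCircle ∧ IsONB B e ∧ M = matTTO φ e

/-- The boundary kernel `k_ζ(z) = (1 - conj(α) B(z)) / (1 - conj(ζ) z)`. -/
noncomputable def ker (B : ℂ → ℂ) (α ζ : ℂ) (t : TT) : ℂ :=
  (1 - conj α * B (zz t)) / (1 - conj ζ * zz t)

/-- `e` is a modified Aleksandrov-Clark basis of `K_B`, for a finite Blaschke product `B` of degree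
`n`: there are `α` on the unit circle and `n` distinct points `ζ_j` of the circle with
`B(ζ_j) = α`, and `w_j` on the circle with `w_j² = α conj(ζ_j)`, such that
`e_j = w_j k_j / ‖k_j‖` for the boundary kernels `k_j` of the `ζ_j`. -/
def IsModifiedClark {n : ℕ} (B : ℂ → ℂ) (e : Fin n → TT → ℂ) : Prop :=
  ∃ (α : ℂ) (ζ w : Fin n → ℂ), ‖α‖ = 1 ∧ Function.Injective ζ ∧
    (∀ j, ‖ζ j‖ = 1 ∧ B (ζ j) = α) ∧ (∀ j, ‖w j‖ = 1 ∧ w j ^ 2 = α * conj (ζ j)) ∧
    ∀ j t, e j t = w j / (Real.sqrt (ip (ker B α (ζ j)) (ker B α (ζ j))).re : ℂ) * ker B α (ζ j) t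

/-- `M` is the matrix of a truncated Toeplitz operator with respect to a modified
Aleksandrov-Clark basis. -/
def HasClarkForm {n : ℕ} (M : Matrix (Fin n) (Fin n) ℂ) : Prop :=
  ∃ (B : ℂ → ℂ) (φ : TT → ℂ) (e : Fin n → TT → ℂ), IsBlaschke n B ∧
    MemLp φ ⊤ AddCircle.haarAddCircle ∧ IsModifiedClark B e ∧ M = matTTO φ e

/-- `M` is irreducible: it commutes with no orthogonal projection besides `0` and `1`. -/
def Irred {n : ℕ} (M : Matrix (Fin n) (Fin n) ℂ) : Prop :=
  ∀ P : Matrix (Fin n) (Fin n) ℂ, P.conjTranspose = P → P * P = P → P * M = M * P →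
    P = 0 ∨ P = 1

end Pool.Agent.N293.CD
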