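import Mathlib
import Pool.Agent.N293.CD1

set_option autoImplicit false

open MeasureTheory ComplexConjugate Filter Topology

namespace Pool.Agent.N293.CD

lemma norm_zz (t : TT) : ‖zz t‖ = 1 := by
  unfold zz
  rw [fourier_apply, Circle.norm_coe]

lemma vol_single (x : TT) : AddCircle.haarAddCircle {x} = 0 := by
  have h0 := AddCircle.volume_eq_smul_haarAddCircle (T := (1 : ℝ))
  rw [ENNReal.ofReal_one, one_smul] at h0
  rw [← h0]
  have h : ∀ ε : ℝ, 0 < ε → (volume : Measure (AddCircle (1 : ℝ))) {x} ≤ ENNReal.ofReal (2 * ε) := by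
    intro ε hε
    calc (volume : Measure (AddCircle (1 : ℝ))) {x} ≤ volume (Metric.closedBall x ε) := by
          apply measure_mono
          rw [Set.singleton_subset_iff]
          exact Metric.mem_closedBall_self hε.le
      _ = ENNReal.ofReal (min 1 (2 * ε)) := AddCircle.volume_closedBall 1 ε
      _ ≤ ENNReal.ofReal (2 * ε) := ENNReal.ofReal_le_ofReal (min_le_right _ _)
  refine le_antisymm (le_of_forall_pos_le_add fun ε hε => ?_) zero_le
  rw [zero_add]
  by_cases hT : ε = ⊤
  · rw [hT]; exact le_top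
  have h1 : 0 < ε.toReal := ENNReal.toReal_pos hε.ne' hT
  refine (h (ε.toReal / 2) (half_pos h1)).trans ?_
  rw [mul_div_cancel₀ _ two_ne_zero, ENNReal.ofReal_toReal hT]

lemma zz_inj : Function.Injective zz := by
  intro s t h
  unfold zz at h
  rw [fourier_one, fourier_one] at h
  exact AddCircle.injective_toCircle one_ne_zero (Circle.coe_injective h)

lemma ae_ne (ζ : ℂ) : ∀ᵐ t ∂AddCircle.haarAddCircle, zz t ≠ ζ := by
  by_cases h : ∃ s, zz s = ζ
  · obtain ⟨s, hs⟩ := h
    have h1 : ∀ᵐ t ∂(AddCircle.haarAddCircle : Measure TT), t ≠ s := by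
      rw [ae_iff]
      simp only [ne_eq, not_not, Set.ofPred_eq_eq_singleton]
      exact vol_single s
    filter_upwards [h1] with t ht hc
    exact ht (zz_inj (hc.trans hs.symm))
  · exact Eventually.of_forall fun t ht => h ⟨t, ht⟩

lemma zz_cont : Continuous zz := by
  unfold zz
  exact map_continuous (fourier 1)

lemma zz_meas : Measurable zz := zz_cont.measurable

lemma conj_mul_one {z : ℂ} (hz : ‖z‖ = 1) : conj z * z = 1 := by
  rw [← Complex.normSq_eq_conj_mul_self, Complex.normSq_eq_norm_sq, hz]; norm_num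

lemma blaschke_norm {n : ℕ} {B : ℂ → ℂ} (hB : IsBlaschke n B) {z : ℂ} (hz : ‖z‖ = 1) :
    ‖B z‖ = 1 := by
  obtain ⟨c, a, hc, ha, h⟩ := hB
  rw [h, norm_mul, hc, one_mul, norm_prod]
  refine Finset.prod_eq_one fun i _ => ?_
  have hzz := conj_mul_one hz
  have h1 : z - a i = z * conj (1 - conj (a i) * z) := by
    rw [map_sub, map_mul, map_one, Complex.conj_conj]
    linear_combination (a i) * hzz
  have h2 : (1 - conj (a i) * z) ≠ 0 := by
    intro h0
    have : ‖conj (a i) * z‖ = 1 := by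
      rw [sub_eq_zero] at h0
      rw [← h0]; simp
    rw [norm_mul, RCLike.norm_conj, hz, mul_one] at this
    linarith [ha i]
  rw [norm_div, h1, norm_mul, hz, one_mul, RCLike.norm_conj]
  exact div_self (norm_ne_zero_iff.2 h2)

lemma blaschke_meas {n : ℕ} {B : ℂ → ℂ} (hB : IsBlaschke n B) : Measurable (fun t => B (zz t)) := by
  obtain ⟨c, a, -, -, h⟩ := hB
  simp only [h]
  refine measurable_const.mul (Finset.measurable_fun_prod _ fun i _ => ?_)
  exact (zz_meas.sub_const _).div (measurable_const.sub (zz_meas.const_mul _))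

lemma ker_meas {n : ℕ} {B : ℂ → ℂ} (hB : IsBlaschke n B) (α ζ : ℂ) : Measurable (ker B α ζ) := by
  unfold ker
  exact (measurable_const.sub ((blaschke_meas hB).const_mul _)).div
    (measurable_const.sub (zz_meas.const_mul _))

lemma ker_bdd {n : ℕ} {B : ℂ → ℂ} (hB : IsBlaschke n B) {α ζ : ℂ} (hα : ‖α‖ = 1) (hζ : ‖ζ‖ = 1)
    (hBζ : B ζ = α) : ∃ C : ℝ, ∀ᵐ t ∂AddCircle.haarAddCircle, ‖ker B α ζ t‖ ≤ C := by
  obtain ⟨c, a, hc, ha, h⟩ := hB
  set s : Set ℂ := {z | ∀ i, 1 - conj (a i) * z ≠ 0} with hs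
  have hso : IsOpen s := by
    rw [hs]
    simp only [Set.ofPred_forall]
    refine isOpen_iInter_of_finite fun i => ?_
    exact isOpen_ne_fun (by fun_prop) (by fun_prop)
  have hcirc : ∀ z : ℂ, ‖z‖ = 1 → z ∈ s := by
    intro z hz i h0
    have : ‖conj (a i) * z‖ = 1 := by
      rw [sub_eq_zero] at h0
      rw [← h0]; simp
    rw [norm_mul, RCLike.norm_conj, hz, mul_one] at this
    linarith [ha i]
  have hd : DifferentiableOn ℂ B s := by
    have : B = fun z => c * ∏ i, (z - a i) / (1 - conj (a i) * z) := funext h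
    rw [this]
    refine DifferentiableOn.const_mul ?_ _
    refine DifferentiableOn.fun_finsetProd fun i _ => ?_
    refine DifferentiableOn.div (by fun_prop) (by fun_prop) fun z hz => hz i
  have hc1 : ContinuousOn (dslope B ζ) s := by
    rw [continuousOn_dslope (hso.mem_nhds (hcirc ζ hζ))]
    exact ⟨hd.continuousOn, hd.differentiableAt (hso.mem_nhds (hcirc ζ hζ))⟩
  have hK : IsCompact (Metric.sphere (0 : ℂ) 1) := isCompact_sphere 0 1
  obtain ⟨C, hC⟩ := hK.exists_bound_of_continuousOn (hc1.mono fun z hz => hcirc z (by simpa using hz))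
  refine ⟨C, ?_⟩
  filter_upwards [ae_ne ζ] with t ht
  have h1 := hC (zz t) (by simp [norm_zz])
  have h2 : ker B α ζ t = conj α * ζ * dslope B ζ (zz t) := by
    rw [dslope_of_ne _ ht, slope_def_field, hBζ]
    unfold ker
    have d1 : zz t - ζ ≠ 0 := sub_ne_zero.2 ht
    have aζ := conj_mul_one hζ
    have aα := conj_mul_one hα
    have d2 : 1 - conj ζ * zz t ≠ 0 := by
      intro h0
      apply d1
      linear_combination (-ζ) * h0 - (zz t) * aζ
    rw [div_eq_iff d2, mul_div_assoc', div_mul_eq_mul_div, eq_div_iff d1]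
    linear_combination (-(zz t - ζ)) * aα + (conj α * (B (zz t) - α) * zz t) * aζ
  rw [h2, norm_mul, norm_mul, RCLike.norm_conj, hα, hζ, one_mul, one_mul]
  exact h1

end Pool.Agent.N293.CD
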