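import Mathlib
import Pool.Agent.N293.CD2

set_option autoImplicit false

open MeasureTheory ComplexConjugate Filter Topology

namespace Pool.Agent.N293.CD

/-- the key pointwise identity -/
lemma key {ζ ξ z b : ℂ} (hζ : ‖ζ‖ = 1) (hz : ‖z‖ = 1) (h1 : z ≠ ζ) (h2 : z ≠ ξ)
    (hξ : ‖ξ‖ = 1) (hne : ζ ≠ ξ) :
    conj (b / (1 - conj ζ * z)) * (b / (1 - conj ξ * z)) =
      (-(conj ζ) / (conj ξ - conj ζ)) * (conj b * (b / (1 - conj ξ * z) - b / (1 - conj ζ * z))) := by
  have hzz : conj z * z = 1 := by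
    rw [← Complex.normSq_eq_conj_mul_self, Complex.normSq_eq_norm_sq, hz]; norm_num
  have hζζ : conj ζ * ζ = 1 := by
    rw [← Complex.normSq_eq_conj_mul_self, Complex.normSq_eq_norm_sq, hζ]; norm_num
  have hξξ : conj ξ * ξ = 1 := by
    rw [← Complex.normSq_eq_conj_mul_self, Complex.normSq_eq_norm_sq, hξ]; norm_num
  have d1 : 1 - conj ζ * z ≠ 0 := by
    intro h
    apply h1
    have : ζ * (1 - conj ζ * z) = 0 := by rw [h, mul_zero]
    linear_combination (-1 : ℂ) * this - z * hζζ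
  have d2 : 1 - conj ξ * z ≠ 0 := by
    intro h
    apply h2
    have : ξ * (1 - conj ξ * z) = 0 := by rw [h, mul_zero]
    linear_combination (-1 : ℂ) * this - z * hξξ
  have d3 : conj ξ - conj ζ ≠ 0 := by
    rw [← map_sub, map_ne_zero_iff _ (starRingEnd ℂ).injective, sub_ne_zero]
    exact hne.symm
  have d4 : 1 - ζ * conj z ≠ 0 := by
    intro h
    apply d1
    have := congrArg conj h
    rw [map_sub, map_mul, map_one, map_zero, Complex.conj_conj] at this
    exact this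
  have e : (1 - ζ * conj z) * (-(conj ζ) * z) = 1 - conj ζ * z := by
    linear_combination (conj z * z) * hζζ + hzz
  have hinv : (1 - ζ * conj z)⁻¹ = (-(conj ζ) * z) / (1 - conj ζ * z) := by
    rw [eq_div_iff d1, ← e]
    field_simp
  rw [map_div₀, map_sub, map_mul, map_one, Complex.conj_conj, div_eq_mul_inv (conj b), hinv]
  have e2 : b / (1 - conj ξ * z) - b / (1 - conj ζ * z) =
      (conj ξ - conj ζ) * (b * z / ((1 - conj ζ * z) * (1 - conj ξ * z))) := by
    rw [div_sub_div _ _ d2 d1, mul_div_assoc', div_eq_div_iff (mul_ne_zero d2 d1)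
      (mul_ne_zero d1 d2)]
    ring
  rw [e2]
  have e3 : (-(conj ζ) / (conj ξ - conj ζ)) * (conj b * ((conj ξ - conj ζ) *
      (b * z / ((1 - conj ζ * z) * (1 - conj ξ * z))))) =
      -(conj ζ) * (conj b * (b * z / ((1 - conj ζ * z) * (1 - conj ξ * z)))) *
        ((conj ξ - conj ζ) / (conj ξ - conj ζ)) := by ring
  rw [e3, div_self d3, mul_one, ← div_div]
  ring

/-- the coefficient in the off-diagonal entries is purely imaginary -/
lemma coef_imag {α w₁ w₂ ζ₁ ζ₂ : ℂ} (hα : ‖α‖ = 1) (hw₁ : ‖w₁‖ = 1) (hw₂ : ‖w₂‖ = 1)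
    (h1 : w₁ ^ 2 = α * conj ζ₁) (h2 : w₂ ^ 2 = α * conj ζ₂) (hne : ζ₁ ≠ ζ₂) :
    conj (conj w₁ * w₂ * (-(conj ζ₁) / (conj ζ₂ - conj ζ₁))) =
      -(conj w₁ * w₂ * (-(conj ζ₁) / (conj ζ₂ - conj ζ₁))) := by
  have aα := conj_mul_one hα
  have a1 := conj_mul_one hw₁
  have a2 := conj_mul_one hw₂
  have z1 : conj ζ₁ = conj α * w₁ ^ 2 := by rw [h1]; linear_combination (-(conj ζ₁)) * aα
  have z2 : conj ζ₂ = conj α * w₂ ^ 2 := by rw [h2]; linear_combination (-(conj ζ₂)) * aα
  have hα0 : conj α ≠ 0 := by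
    intro h; rw [h, zero_mul] at aα; exact zero_ne_one aα
  have hd : w₂ ^ 2 - w₁ ^ 2 ≠ 0 := by
    intro h
    apply hne
    apply (starRingEnd ℂ).injective
    rw [z1, z2, sub_eq_zero.1 h]
  have hd' : conj (w₂ ^ 2 - w₁ ^ 2) ≠ 0 := by
    rwa [map_ne_zero_iff _ (starRingEnd ℂ).injective]
  have e : conj w₁ * w₂ * (-(conj ζ₁) / (conj ζ₂ - conj ζ₁)) = -(w₁ * w₂) / (w₂ ^ 2 - w₁ ^ 2) := by
    rw [z1, z2, ← mul_sub, mul_div_assoc', div_eq_div_iff (mul_ne_zero hα0 hd) hd]
    linear_combination (-(w₂ * conj α * w₁) * (w₂ ^ 2 - w₁ ^ 2)) * a1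
  rw [e, map_div₀, ← neg_div, div_eq_div_iff hd' hd]
  simp only [map_neg, map_mul, map_sub, map_pow]
  linear_combination (-(conj w₁ * w₂) - w₁ * conj w₂) * a2 + (w₂ * conj w₁ + conj w₂ * w₁) * a1

/-- off-diagonal entries in a modified Clark basis -/
lemma offdiag {n : ℕ} {B : ℂ → ℂ} (hB : IsBlaschke n B) {φ : TT → ℂ}
    (hφ : MemLp φ ⊤ AddCircle.haarAddCircle) {α : ℂ} (hα : ‖α‖ = 1)
    {ζ : Fin n → ℂ} (hinj : Function.Injective ζ) (hζ : ∀ j, ‖ζ j‖ = 1 ∧ B (ζ j) = α) :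
    ∃ p : Fin n → ℂ, ∀ i j, i ≠ j → ip (fun t => φ t * ker B α (ζ j) t) (ker B α (ζ i)) =
      (-(conj (ζ i)) / (conj (ζ j) - conj (ζ i))) * (p j - p i) := by
  set q : TT → ℂ := fun t => conj (1 - conj α * B (zz t)) with hq
  have hqm : Measurable q :=
    Complex.continuous_conj.measurable.comp (measurable_const.sub ((blaschke_meas hB).const_mul _))
  have hqb : ∀ t, ‖q t‖ ≤ 2 := by
    intro t
    rw [hq]
    simp only [RCLike.norm_conj]
    refine (norm_sub_le _ _).trans ?_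
    rw [norm_mul, RCLike.norm_conj, hα, blaschke_norm hB (norm_zz t)]
    norm_num
  have hint : ∀ j, Integrable (fun t => q t * (φ t * ker B α (ζ j) t)) AddCircle.haarAddCircle := by
    intro j
    obtain ⟨C, hC⟩ := ker_bdd hB hα (hζ j).1 (hζ j).2
    have h0 : Integrable φ AddCircle.haarAddCircle := hφ.integrable le_top
    have h1 : Integrable (fun t => φ t * ker B α (ζ j) t) AddCircle.haarAddCircle :=
      h0.mul_bdd (ker_meas hB α (ζ j)).aestronglyMeasurable hC
    exact h1.bdd_mul hqm.aestronglyMeasurable (Eventually.of_forall hqb)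
  refine ⟨fun j => ∫ t, q t * (φ t * ker B α (ζ j) t) ∂AddCircle.haarAddCircle, fun i j hij => ?_⟩
  simp only
  rw [← integral_sub (hint j) (hint i), ← integral_const_mul]
  unfold ip
  refine integral_congr_ae ?_
  filter_upwards [ae_ne (ζ i), ae_ne (ζ j)] with t h3 h4
  have hne : ζ i ≠ ζ j := fun h => hij (hinj h)
  have e := key (b := 1 - conj α * B (zz t)) (hζ i).1 (norm_zz t) h3 h4 (hζ j).1 hne
  simp only [hq]
  unfold ker
  linear_combination (φ t) * e

lemma ip_smul (f g : TT → ℂ) (a b : ℂ) (φ : TT → ℂ) :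
    ip (fun t => φ t * (a * f t)) (fun t => b * g t) = conj b * a * ip (fun t => φ t * f t) g := by
  unfold ip
  rw [← integral_const_mul]
  refine integral_congr_ae (Eventually.of_forall fun t => ?_)
  simp only [map_mul]
  ring

theorem no_clark {n : ℕ} {M : Matrix (Fin n) (Fin n) ℂ} {i0 i1 i2 : Fin n} (h01 : i0 ≠ i1)
    (h02 : i0 ≠ i2) (h12 : i1 ≠ i2) {s t : ℝ} (hs : s ≠ 0) (ht : t ≠ 0)
    (m01 : M i0 i1 = s) (m12 : M i1 i2 = Complex.I * t) (m02 : M i0 i2 = 0) :
    ¬ HasClarkForm M := by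
  rintro ⟨B, φ, e, hB, hφ, ⟨α, ζ, w, hα, hinj, hζ, hw, he⟩, hM⟩
  have hζ1 : ∀ j, ‖ζ j‖ = 1 := fun j => (hζ j).1
  obtain ⟨p, hp⟩ := offdiag hB hφ hα hinj hζ
  set N : Fin n → ℝ := fun j => Real.sqrt (ip (ker B α (ζ j)) (ker B α (ζ j))).re with hN
  have hent0 : ∀ i j, M i j = conj (w i / (N i : ℂ)) * (w j / (N j : ℂ)) *
      ip (fun t => φ t * ker B α (ζ j) t) (ker B α (ζ i)) := by
    intro i j
    rw [hM]
    unfold matTTO
    rw [Matrix.of_apply]
    have e1 : e j = fun t => w j / (N j : ℂ) * ker B α (ζ j) t := funext fun t => he j t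
    have e2 : e i = fun t => w i / (N i : ℂ) * ker B α (ζ i) t := funext fun t => he i t
    rw [e1, e2]
    exact ip_smul _ _ _ _ _
  have hs' : (s : ℂ) ≠ 0 := by exact_mod_cast hs
  have ht' : (t : ℂ) ≠ 0 := by exact_mod_cast ht
  have n0 : (N i0 : ℂ) ≠ 0 := by
    intro h
    have := hent0 i0 i1
    rw [m01, h] at this
    simp at this
    exact hs this
  have n1 : (N i1 : ℂ) ≠ 0 := by
    intro h
    have := hent0 i0 i1
    rw [m01, h] at this
    simp at this
    exact hs this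
  have n2 : (N i2 : ℂ) ≠ 0 := by
    intro h
    have := hent0 i1 i2
    rw [m12, h] at this
    simp at this
    exact ht this
  set C : Fin n → Fin n → ℂ := fun i j =>
    conj (w i) * w j * (-(conj (ζ i)) / (conj (ζ j) - conj (ζ i))) with hC
  have hCim : ∀ i j, i ≠ j → conj (C i j) = - C i j := fun i j hij =>
    coef_imag hα (hw i).1 (hw j).1 (hw i).2 (hw j).2 (fun h => hij (hinj h))
  have hent : ∀ i j, i ≠ j → (N i : ℂ) ≠ 0 → (N j : ℂ) ≠ 0 →
      M i j * (N i * N j) = C i j * (p j - p i) := by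
    intro i j hij hi hj
    rw [hent0, hp i j hij, map_div₀, Complex.conj_ofReal]
    simp only [hC]
    field_simp
  have E02 := hent i0 i2 h02 n0 n2
  have E01 := hent i0 i1 h01 n0 n1
  have E12 := hent i1 i2 h12 n1 n2
  rw [m02, zero_mul] at E02
  rw [m01] at E01
  rw [m12] at E12
  have C12 : C i1 i2 ≠ 0 := by
    intro h
    rw [h, zero_mul] at E12
    exact mul_ne_zero (mul_ne_zero Complex.I_ne_zero ht') (mul_ne_zero n1 n2) E12
  have C02 : C i0 i2 ≠ 0 := by
    have hw0 : ∀ i, w i ≠ 0 := by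
      intro i h
      have := (hw i).1
      rw [h, norm_zero] at this
      exact zero_ne_one this
    have hz0 : ζ i0 ≠ 0 := by
      intro h
      have := hζ1 i0
      rw [h, norm_zero] at this
      exact zero_ne_one this
    simp only [hC]
    refine mul_ne_zero (mul_ne_zero ?_ (hw0 i2)) (div_ne_zero ?_ ?_)
    · rw [map_ne_zero_iff _ (starRingEnd ℂ).injective]; exact hw0 i0
    · rw [neg_ne_zero, map_ne_zero_iff _ (starRingEnd ℂ).injective]; exact hz0
    · rw [← map_sub, map_ne_zero_iff _ (starRingEnd ℂ).injective, sub_ne_zero]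
      exact fun h => h02 (hinj h.symm)
  have hp02 : p i2 = p i0 := by
    have := E02.symm
    rw [mul_eq_zero] at this
    rcases this with h | h
    · exact absurd h C02
    · exact sub_eq_zero.1 h
  rw [hp02] at E12
  have H : C i1 i2 * (s * (N i0 * N i1)) = -(C i0 i1 * (Complex.I * t * (N i1 * N i2))) := by
    rw [E01, E12]; ring
  have H' := congrArg conj H
  simp only [map_mul, map_neg, Complex.conj_ofReal, Complex.conj_I, hCim _ _ h01, hCim _ _ h12] at H'
  have H2 : C i1 i2 * (s * (N i0 * N i1)) = 0 := by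
    linear_combination (1 / 2 : ℂ) * H - (1 / 2 : ℂ) * H'
  exact mul_ne_zero C12 (mul_ne_zero hs' (mul_ne_zero n0 n1)) H2

end Pool.Agent.N293.CD
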