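import Mathlib
import Pool.Agent.N293.CD3

set_option autoImplicit false

open MeasureTheory ComplexConjugate Filter Topology Matrix

namespace Pool.Agent.N293.CD

/-- the Blaschke product `z ^ n` -/
def pw (n : ℕ) : ℂ → ℂ := fun z => z ^ n

lemma pw_blaschke (n : ℕ) : IsBlaschke n (pw n) := by
  refine ⟨1, fun _ => 0, by simp, fun _ => by simp, fun z => ?_⟩
  simp [pw]

lemma zz_pow (n : ℕ) (t : TT) : zz t ^ n = fourier (n : ℤ) t := by
  unfold zz
  induction n with
  | zero => simp
  | succ m ih =>
    rw [pow_succ, ih, ← fourier_add]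
    push_cast
    rfl

lemma int_fourier (m : ℤ) : ∫ t : TT, (fourier m t : ℂ) ∂AddCircle.haarAddCircle =
    if m = 0 then 1 else 0 := by
  have h := congrFun (fourierCoeff_fourier (T := (1 : ℝ)) m) 0
  unfold fourierCoeff at h
  simp only [neg_zero, fourier_zero, one_smul] at h
  rw [h]
  by_cases hm : m = 0
  · rw [if_pos hm, hm, Pi.single_eq_same]
  · rw [if_neg hm, Pi.single_eq_of_ne (Ne.symm hm)]

lemma int_cont (f : TT → ℂ) (hf : Continuous f) : Integrable f AddCircle.haarAddCircle :=
  hf.integrable_of_hasCompactSupport (HasCompactSupport.of_compactSpace _)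

lemma memLp_cont (f : TT → ℂ) (hf : Continuous f) (p : ENNReal) :
    MemLp f p AddCircle.haarAddCircle := by
  obtain ⟨C, hC⟩ := isCompact_univ.exists_bound_of_continuousOn hf.continuousOn
  exact MemLp.of_bound hf.aestronglyMeasurable C (Eventually.of_forall fun t => hC t (Set.mem_univ t))

/-- polynomials on the circle -/
noncomputable def poly {n : ℕ} (a : Fin n → ℂ) (t : TT) : ℂ := ∑ i, a i * zz t ^ (i : ℕ)

lemma poly_cont {n : ℕ} (a : Fin n → ℂ) : Continuous (poly a) := by
  unfold poly
  exact continuous_finsetSum _ fun i _ => (zz_cont.pow _).const_mul _ |> fun h => by simpa using h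

/-- scalar product of polynomials, one of them shifted -/
lemma ip_poly {n : ℕ} (k : ℕ) (a b : Fin n → ℂ) :
    ip (fun t => zz t ^ k * poly a t) (poly b) =
      ∑ j : Fin n, ∑ i : Fin n, conj (b j) * (if (j : ℕ) = i + k then 1 else 0) * a i := by
  have h1 : ∀ t : TT, zz t ^ k * poly a t * conj (poly b t) =
      ∑ j : Fin n, ∑ i : Fin n, conj (b j) * a i * (fourier ((i : ℤ) + k - j) t : ℂ) := by
    intro t
    unfold poly
    rw [map_sum, Finset.mul_sum]
    refine Finset.sum_congr rfl fun j _ => ?_
    rw [Finset.mul_sum, Finset.sum_mul]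
    refine Finset.sum_congr rfl fun i _ => ?_
    rw [map_mul, map_pow, ← map_pow, zz_pow, zz_pow, zz_pow, ← fourier_neg, sub_eq_add_neg,
      fourier_add, fourier_add]
    ring
  unfold ip
  simp only [h1]
  rw [integral_finsetSum]
  · refine Finset.sum_congr rfl fun j _ => ?_
    rw [integral_finsetSum]
    · refine Finset.sum_congr rfl fun i _ => ?_
      rw [integral_const_mul, int_fourier]
      have : ((i : ℤ) + k - j = 0) ↔ ((j : ℕ) = i + k) := by omega
      simp only [this]
      ring
    · intro i _
      exact int_cont _ (by fun_prop)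
  · intro j _
    exact int_cont _ (by fun_prop)

lemma poly_H2 {n : ℕ} (a : Fin n → ℂ) : InH2 (poly a) := by
  refine ⟨memLp_cont _ (poly_cont a) 2, fun m hm => ?_⟩
  unfold fourierCoeff
  have h1 : ∀ t : TT, (fourier (-m) t : ℂ) • poly a t = ∑ i : Fin n, a i * (fourier (-m + i) t : ℂ) := by
    intro t
    unfold poly
    rw [Finset.smul_sum]
    refine Finset.sum_congr rfl fun i _ => ?_
    rw [smul_eq_mul, zz_pow, fourier_add]
    ring
  simp only [h1]
  rw [integral_finsetSum]
  · refine Finset.sum_eq_zero fun i _ => ?_
    rw [integral_const_mul, int_fourier, if_neg (by omega), mul_zero]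
  · intro j _
    exact int_cont _ (by fun_prop)

lemma poly_model {n : ℕ} (a : Fin n → ℂ) : InModel (pw n) (poly a) := by
  refine ⟨poly_H2 a, fun h hh => ?_⟩
  have hI : Integrable h AddCircle.haarAddCircle := hh.1.integrable (by norm_num)
  have h1 : ∀ t : TT, poly a t * conj (pw n (zz t) * h t) =
      ∑ i : Fin n, a i * conj ((fourier (-(-(n - i : ℤ))) t : ℂ) • h t) := by
    intro t
    unfold poly pw
    rw [Finset.sum_mul]
    refine Finset.sum_congr rfl fun i _ => ?_
    rw [smul_eq_mul, map_mul, map_mul, zz_pow, zz_pow]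
    have : (conj (fourier (-(-(n - i : ℤ))) t : ℂ)) = fourier (i : ℤ) t * conj (fourier (n : ℤ) t) := by
      rw [← fourier_neg, ← fourier_neg, ← fourier_add]
      congr 2
      ring
    rw [this]
    ring
  unfold ip
  simp only [h1]
  have hint : ∀ i : Fin n, Integrable (fun t : TT => (fourier (-(-(n - i : ℤ))) t : ℂ) • h t)
      AddCircle.haarAddCircle := by
    intro i
    refine hI.bdd_mul (c := 1) (map_continuous _).aestronglyMeasurable
      (Eventually.of_forall fun t => ?_)
    rw [fourier_apply, Circle.norm_coe]
  rw [integral_finsetSum]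
  · refine Finset.sum_eq_zero fun i _ => ?_
    rw [integral_const_mul, integral_conj]
    have := hh.2 (-(n - i : ℤ)) (by omega)
    unfold fourierCoeff at this
    rw [this]
    simp
  · intro i _
    refine Integrable.const_mul ?_ _
    exact memLp_one_iff_integrable.1 (memLp_one_iff_integrable.2 (hint i)).star

lemma mono_H2 (k : ℕ) : InH2 (fun t => zz t ^ k) := by
  have : (fun t : TT => zz t ^ k) = poly (n := k + 1) (fun i => if (i : ℕ) = k then 1 else 0) := by
    funext t
    unfold poly
    rw [Finset.sum_eq_single (Fin.last k)]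
    · simp
    · intro b _ hb
      simp only
      rw [if_neg, zero_mul]
      intro h
      apply hb
      apply Fin.ext
      simpa using h
    · simp
  rw [this]
  exact poly_H2 _

/-- a function of the model space is a polynomial -/
lemma model_poly {n : ℕ} {f : TT → ℂ} (hf : InModel (pw n) f) :
    ∀ᵐ t ∂AddCircle.haarAddCircle, f t = poly (n := n) (fun i => fourierCoeff f (i : ℕ)) t := by
  have hcoef : ∀ m : ℤ, (m < 0 ∨ n ≤ m) → fourierCoeff f m = 0 := by
    rintro m (hm | hm)
    · exact hf.1.2 m hm
    · have h1 := hf.2 _ (mono_H2 (m - n).toNat)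
      rw [← h1]
      unfold ip fourierCoeff
      refine integral_congr_ae (Eventually.of_forall fun t => ?_)
      simp only [smul_eq_mul]
      unfold pw
      rw [zz_pow, zz_pow, ← fourier_add, ← fourier_neg, mul_comm]
      congr 3
      omega
  set a : Fin n → ℂ := fun i => fourierCoeff f (i : ℕ) with ha
  have hp : MemLp (poly a) 2 AddCircle.haarAddCircle := (poly_H2 a).1
  have hfp := hf.1.1
  have heq : hfp.toLp f = hp.toLp (poly a) := by
    apply (fourierBasis (T := (1 : ℝ))).repr.injective
    ext m
    rw [fourierBasis_repr, fourierBasis_repr]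
    have e1 : fourierCoeff (hfp.toLp f : TT → ℂ) m = fourierCoeff f m := by
      unfold fourierCoeff
      refine integral_congr_ae ?_
      filter_upwards [hfp.coeFn_toLp] with t ht
      rw [ht]
    have e2 : fourierCoeff (hp.toLp (poly a) : TT → ℂ) m = fourierCoeff (poly a) m := by
      unfold fourierCoeff
      refine integral_congr_ae ?_
      filter_upwards [hp.coeFn_toLp] with t ht
      rw [ht]
    rw [e1, e2]
    have e3 : fourierCoeff (poly a) m = ∑ i : Fin n, if m = (i : ℕ) then a i else 0 := by
      unfold fourierCoeff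
      have h1 : ∀ t : TT, (fourier (-m) t : ℂ) • poly a t =
          ∑ i : Fin n, a i * (fourier (-m + i) t : ℂ) := by
        intro t
        unfold poly
        rw [Finset.smul_sum]
        refine Finset.sum_congr rfl fun i _ => ?_
        rw [smul_eq_mul, zz_pow, fourier_add]
        ring
      simp only [h1]
      rw [integral_finsetSum]
      · refine Finset.sum_congr rfl fun i _ => ?_
        rw [integral_const_mul, int_fourier]
        by_cases h : m = (i : ℕ)
        · rw [if_pos (by omega), if_pos h, mul_one]
        · rw [if_neg (by omega), if_neg h, mul_zero]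
      · intro j _
        exact int_cont _ (by fun_prop)
    rw [e3]
    by_cases hm : 0 ≤ m ∧ m < n
    · rw [Finset.sum_eq_single (⟨m.toNat, by omega⟩ : Fin n)]
      · have hm' : ((m.toNat : ℕ) : ℤ) = m := by omega
        rw [if_pos hm'.symm, ha]
        simp only [hm']
      · intro b _ hb
        rw [if_neg]
        intro h
        apply hb
        apply Fin.ext
        simp only
        omega
      · intro h; exact absurd (Finset.mem_univ _) h
    · rw [hcoef m (by omega)]
      symm
      refine Finset.sum_eq_zero fun j _ => ?_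
      rw [if_neg (by omega)]
  have h1 := hfp.coeFn_toLp
  have h2 := hp.coeFn_toLp
  rw [heq] at h1
  filter_upwards [h1, h2] with t a1 a2
  rw [← a1, a2]

end Pool.Agent.N293.CD
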