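import Mathlib
import Pool.Agent.N293.CD4

set_option autoImplicit false

open MeasureTheory ComplexConjugate Filter Topology Matrix

namespace Pool.Agent.N293.CD

/-- the nilpotent Jordan block -/
def JJ (n : ℕ) : Matrix (Fin n) (Fin n) ℂ :=
  Matrix.of fun i j => if (i : ℕ) = (j : ℕ) + 1 then 1 else 0

/-- the columns of a matrix as polynomials -/
noncomputable def ub {n : ℕ} (Q : Matrix (Fin n) (Fin n) ℂ) (j : Fin n) : TT → ℂ :=
  poly fun i => Q i j

lemma ub_onb {n : ℕ} (Q : Matrix (Fin n) (Fin n) ℂ) (hQ : Qᴴ * Q = 1) : IsONB (pw n) (ub Q) := by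
  refine ⟨fun j => poly_model _, fun i j => ?_, fun f hf => ?_⟩
  · have h := ip_poly (n := n) 0 (fun a => Q a i) (fun a => Q a j)
    simp only [pow_zero, one_mul, add_zero] at h
    change ip (ub Q i) (ub Q j) = _ at h
    rw [h]
    have h1 := congrFun (congrFun hQ j) i
    rw [Matrix.mul_apply, Matrix.one_apply] at h1
    have h2 : (if i = j then (1 : ℂ) else 0) = if j = i then 1 else 0 := by
      apply if_congr _ rfl rfl
      exact eq_comm
    rw [h2, ← h1]
    refine Finset.sum_congr rfl fun a _ => ?_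
    rw [Finset.sum_eq_single a]
    · rw [if_pos rfl, mul_one, Matrix.conjTranspose_apply]
      rfl
    · intro b _ hb
      rw [if_neg (fun h => hb (Fin.ext h.symm))]
      ring
    · simp
  · have hQ' : Q * Qᴴ = 1 := mul_eq_one_comm.1 hQ
    refine ⟨fun j => ∑ i : Fin n, fourierCoeff f (i : ℕ) * conj (Q i j), ?_⟩
    filter_upwards [model_poly hf] with t ht
    rw [ht]
    unfold ub poly
    simp only [Finset.sum_mul_sum]
    rw [Finset.sum_comm]
    refine Finset.sum_congr rfl fun i _ => ?_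
    rw [Finset.sum_comm]
    have h1 : ∀ a : Fin n, ∑ j, fourierCoeff f (i : ℕ) * conj (Q i j) * (Q a j * zz t ^ (a : ℕ)) =
        fourierCoeff f (i : ℕ) * zz t ^ (a : ℕ) * (if a = i then 1 else 0) := by
      intro a
      have h2 := congrFun (congrFun hQ' a) i
      rw [Matrix.mul_apply, Matrix.one_apply] at h2
      rw [← h2, Finset.mul_sum]
      refine Finset.sum_congr rfl fun j _ => ?_
      rw [Matrix.conjTranspose_apply]
      change _ = fourierCoeff f (i : ℕ) * zz t ^ (a : ℕ) * (Q a j * conj (Q i j))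
      ring
    rw [Finset.sum_congr rfl fun a _ => h1 a, Finset.sum_eq_single i]
    · simp
    · intro b _ hb
      rw [if_neg hb, mul_zero]
    · simp

/-- the unitary equivalence -/
theorem ue_QQ {n : ℕ} (Q : Matrix (Fin n) (Fin n) ℂ) (hQ : Qᴴ * Q = 1) :
    UETTO (Qᴴ * JJ n * Q) := by
  refine ⟨pw n, zz, ub Q, pw_blaschke n, memLp_cont _ zz_cont _, ub_onb Q hQ, ?_⟩
  ext i j
  unfold matTTO
  rw [Matrix.of_apply]
  have h := ip_poly (n := n) 1 (fun a => Q a j) (fun a => Q a i)
  simp only [pow_one] at h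
  change ip (fun t => zz t * ub Q j t) (ub Q i) = _ at h
  rw [h, Matrix.mul_apply]
  simp only [Matrix.mul_apply, Finset.sum_mul]
  rw [Finset.sum_comm]
  refine Finset.sum_congr rfl fun a _ => Finset.sum_congr rfl fun d _ => ?_
  rw [Matrix.conjTranspose_apply]
  rfl

lemma commute_scalar {n : ℕ} (R : Matrix (Fin n) (Fin n) ℂ) (h1 : Rᴴ = R)
    (h2 : R * JJ n = JJ n * R) (h0 : 0 < n) : R = (R ⟨0, h0⟩ ⟨0, h0⟩) • (1 : Matrix (Fin n) (Fin n) ℂ) := by
  have hL : ∀ (i j : ℕ) (hi : i < n) (hj : j + 1 < n),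
      (R * JJ n) ⟨i, hi⟩ ⟨j, by omega⟩ = R ⟨i, hi⟩ ⟨j + 1, hj⟩ := by
    intro i j hi hj
    rw [Matrix.mul_apply, Finset.sum_eq_single (⟨j + 1, hj⟩ : Fin n)]
    · simp [JJ]
    · intro b _ hb
      unfold JJ
      rw [Matrix.of_apply, if_neg, mul_zero]
      intro h
      exact hb (Fin.ext h)
    · simp
  have hR : ∀ (i j : ℕ) (hi : i + 1 < n) (hj : j < n),
      (JJ n * R) ⟨i + 1, hi⟩ ⟨j, hj⟩ = R ⟨i, by omega⟩ ⟨j, hj⟩ := by
    intro i j hi hj
    rw [Matrix.mul_apply, Finset.sum_eq_single (⟨i, by omega⟩ : Fin n)]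
    · simp [JJ]
    · intro b _ hb
      unfold JJ
      rw [Matrix.of_apply, if_neg, zero_mul]
      intro h
      apply hb
      apply Fin.ext
      simp only at h ⊢
      omega
    · simp
  have hR0 : ∀ (j : ℕ) (hj : j < n), (JJ n * R) ⟨0, h0⟩ ⟨j, hj⟩ = 0 := by
    intro j hj
    rw [Matrix.mul_apply]
    refine Finset.sum_eq_zero fun b _ => ?_
    unfold JJ
    rw [Matrix.of_apply, if_neg, zero_mul]
    simp only
    omega
  have z1 : ∀ (j : ℕ) (hj : j + 1 < n), R ⟨0, h0⟩ ⟨j + 1, hj⟩ = 0 := by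
    intro j hj
    rw [← hL, h2, hR0]
  have z2 : ∀ (j : ℕ) (hj : j + 1 < n), R ⟨j + 1, hj⟩ ⟨0, h0⟩ = 0 := by
    intro j hj
    rw [← h1, Matrix.conjTranspose_apply, z1, star_zero]
  have st : ∀ (i j : ℕ) (hi : i + 1 < n) (hj : j + 1 < n),
      R ⟨i + 1, hi⟩ ⟨j + 1, hj⟩ = R ⟨i, by omega⟩ ⟨j, by omega⟩ := by
    intro i j hi hj
    rw [← hL, h2, hR]
  have main : ∀ (i : ℕ) (hi : i < n) (j : ℕ) (hj : j < n),
      R ⟨i, hi⟩ ⟨j, hj⟩ = if i = j then R ⟨0, h0⟩ ⟨0, h0⟩ else 0 := by
    intro i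
    induction i with
    | zero =>
      intro hi j hj
      cases j with
      | zero => simp
      | succ j => rw [z1]; simp
    | succ i ih =>
      intro hi j hj
      cases j with
      | zero => rw [z2]; simp
      | succ j =>
        rw [st, ih (by omega) j (by omega)]
        apply if_congr _ rfl rfl
        omega
  ext i j
  rw [Matrix.smul_apply, Matrix.one_apply]
  have := main i i.2 j j.2
  simp only [Fin.eta] at this
  rw [this]
  by_cases h : i = j
  · rw [if_pos (by rw [h]), if_pos h]; simp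
  · rw [if_neg (fun h' => h (Fin.ext h')), if_neg h]; simp

theorem irred_QQ {n : ℕ} (h0 : 0 < n) (Q : Matrix (Fin n) (Fin n) ℂ) (hQ : Qᴴ * Q = 1) :
    Irred (Qᴴ * JJ n * Q) := by
  intro P hP hPP hc
  have hQ' : Q * Qᴴ = 1 := mul_eq_one_comm.1 hQ
  set R := Q * P * Qᴴ with hR
  have h1 : Rᴴ = R := by
    rw [hR, Matrix.conjTranspose_mul, Matrix.conjTranspose_mul, Matrix.conjTranspose_conjTranspose,
      hP, Matrix.mul_assoc]
  have h2 : R * JJ n = JJ n * R := by
    have e1 : R * JJ n = Q * (P * (Qᴴ * JJ n * Q)) * Qᴴ := by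
      rw [hR]
      simp only [Matrix.mul_assoc]
      rw [hQ', Matrix.mul_one]
    have e2 : JJ n * R = Q * ((Qᴴ * JJ n * Q) * P) * Qᴴ := by
      rw [hR]
      simp only [← Matrix.mul_assoc]
      rw [hQ', Matrix.one_mul]
    rw [e1, e2, hc]
  have h3 := commute_scalar R h1 h2 h0
  set l := R ⟨0, h0⟩ ⟨0, h0⟩ with hl
  have h4 : P = l • (1 : Matrix (Fin n) (Fin n) ℂ) := by
    have : Qᴴ * R * Q = P := by
      rw [hR]
      simp only [← Matrix.mul_assoc]
      rw [hQ, Matrix.one_mul, Matrix.mul_assoc, hQ, Matrix.mul_one]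
    rw [← this, h3, Matrix.mul_smul, Matrix.mul_one, Matrix.smul_mul, hQ]
  have h5 : l * l = l := by
    rw [h4, Matrix.smul_mul, Matrix.one_mul, smul_smul] at hPP
    have := congrFun (congrFun hPP ⟨0, h0⟩) ⟨0, h0⟩
    simpa using this
  have h6 : l = 0 ∨ l = 1 := by
    have : l * (l - 1) = 0 := by rw [mul_sub, h5, mul_one, sub_self]
    rcases mul_eq_zero.1 this with h | h
    · exact Or.inl h
    · exact Or.inr (sub_eq_zero.1 h)
  rcases h6 with h | h
  · left; rw [h4, h, zero_smul]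
  · right; rw [h4, h, one_smul]

/-- `1 / √2` -/
noncomputable def r2 : ℝ := (Real.sqrt 2)⁻¹

lemma r2_sq : (r2 : ℂ) * r2 = 1 / 2 := by
  have h : r2 * r2 = 1 / 2 := by
    unfold r2
    rw [← mul_inv, Real.mul_self_sqrt (by norm_num)]
    norm_num
  rw [← Complex.ofReal_mul, h]
  push_cast
  rfl

lemma r2_ne : r2 ≠ 0 := by
  unfold r2
  positivity

noncomputable def pp {n : ℕ} (j : Fin n) : ℂ :=
  if j < j.rev then (r2 : ℂ) else if j = j.rev then 1 else -(Complex.I * r2)

noncomputable def qq {n : ℕ} (j : Fin n) : ℂ :=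
  if j < j.rev then (r2 : ℂ) else if j = j.rev then 0 else Complex.I * r2

/-- the matrix of a basis that is real for the conjugation -/
noncomputable def QQ (n : ℕ) : Matrix (Fin n) (Fin n) ℂ :=
  Matrix.of fun i j => pp j * (if i = j then 1 else 0) + qq j * (if i = j.rev then 1 else 0)

lemma QQ_unitary (n : ℕ) : (QQ n)ᴴ * QQ n = 1 := by
  ext a b
  rw [Matrix.mul_apply]
  have h1 : ∀ i : Fin n, (QQ n)ᴴ a i * QQ n i b =
      (if i = b then conj (QQ n i a) * pp b else 0) +
        (if i = b.rev then conj (QQ n i a) * qq b else 0) := by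
    intro i
    rw [Matrix.conjTranspose_apply]
    change conj (QQ n i a) * (pp b * (if i = b then 1 else 0) + qq b * (if i = b.rev then 1 else 0)) = _
    split_ifs <;> ring
  simp only [h1, Finset.sum_add_distrib, Finset.sum_ite_eq', Finset.mem_univ, if_true]
  have hr := r2_sq
  have hI : Complex.I * Complex.I = -1 := Complex.I_mul_I
  rw [Matrix.one_apply]
  unfold QQ
  simp only [Matrix.of_apply]
  by_cases hab : a = b
  · subst hab
    rw [if_pos rfl]
    unfold pp qq
    by_cases h1 : a < a.rev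
    · have h2 : a ≠ a.rev := h1.ne
      have h3 : a.rev ≠ a := h1.ne'
      simp only [h1, h2, h3, if_true, if_false, map_add, map_mul, map_one, map_zero,
        Complex.conj_ofReal]
      linear_combination 2 * hr
    · by_cases h2 : a = a.rev
      · simp [← h2]
      · have h3 : a.rev ≠ a := fun h => h2 h.symm
        simp only [h1, h2, h3, if_true, if_false, map_add, map_mul, map_one, map_zero, map_neg,
          Complex.conj_ofReal, Complex.conj_I]
        linear_combination 2 * hr - (2 * (r2 : ℂ) * r2) * hI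
  · rw [if_neg hab]
    by_cases hb : b = a.rev
    · subst hb
      rw [Fin.rev_rev]
      have hab' : a.rev ≠ a := fun h => hab h.symm
      unfold pp qq
      rw [Fin.rev_rev]
      rcases lt_or_gt_of_ne hab with h1 | h1
      · have h2 : ¬ a.rev < a := not_lt.2 h1.le
        simp only [h1, h2, hab, hab', if_true, if_false, map_add, map_mul, map_one, map_zero,
          Complex.conj_ofReal]
        ring
      · have h2 : ¬ a < a.rev := not_lt.2 h1.le
        simp only [h1, h2, hab, hab', if_true, if_false, map_add, map_mul, map_one, map_zero,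
          map_neg, Complex.conj_ofReal, Complex.conj_I]
        ring
    · have h1 : b ≠ a := fun h => hab h.symm
      have h2 : b.rev ≠ a := by
        intro h
        apply hb
        rw [← h, Fin.rev_rev]
      have h3 : b.rev ≠ a.rev := fun h => h1 (Fin.rev_injective h)
      simp [h1, h2, h3, hb]

lemma QQ_real (n : ℕ) (i j : Fin n) : QQ n i.rev j = conj (QQ n i j) := by
  unfold QQ
  simp only [Matrix.of_apply]
  unfold pp qq
  have e1 : (i.rev = j) ↔ (i = j.rev) := by
    constructor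
    · intro h; rw [← h, Fin.rev_rev]
    · intro h; rw [h, Fin.rev_rev]
  have e2 : (i.rev = j.rev) ↔ (i = j) := Fin.rev_inj
  simp only [e1, e2]
  by_cases h1 : j < j.rev
  · simp only [h1, if_true, map_add, map_mul, Complex.conj_ofReal]
    split_ifs <;> simp
  · by_cases h2 : j = j.rev
    · simp [← h2]
    · simp only [h1, h2, if_false, map_add, map_mul, map_neg, Complex.conj_ofReal, Complex.conj_I]
      split_ifs <;> simp

lemma JJ_rev (n : ℕ) (i j : Fin n) : JJ n j.rev i.rev = JJ n i j := by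
  unfold JJ
  simp only [Matrix.of_apply, Fin.val_rev]
  apply if_congr _ rfl rfl
  omega

/-- the counterexample -/
noncomputable def MM (n : ℕ) : Matrix (Fin n) (Fin n) ℂ := (QQ n)ᴴ * JJ n * QQ n

lemma MM_apply (n : ℕ) (i j : Fin n) :
    MM n i j = ∑ a, ∑ b, conj (QQ n a i) * JJ n a b * QQ n b j := by
  unfold MM
  rw [Matrix.mul_apply]
  simp only [Matrix.mul_apply, Finset.sum_mul]
  rw [Finset.sum_comm]
  rfl

lemma MM_symm (n : ℕ) : (MM n)ᵀ = MM n := by
  ext i j
  rw [Matrix.transpose_apply, MM_apply, MM_apply, Finset.sum_comm]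
  rw [← Equiv.sum_comp Fin.revPerm]
  refine Finset.sum_congr rfl fun a _ => ?_
  rw [← Equiv.sum_comp Fin.revPerm]
  refine Finset.sum_congr rfl fun b _ => ?_
  rw [Fin.revPerm_apply, Fin.revPerm_apply, JJ_rev, QQ_real, QQ_real, Complex.conj_conj]
  ring

lemma MM_entry {n : ℕ} (i j : Fin n) :
    MM n i j = ∑ b : Fin n, (if h : (b : ℕ) + 1 < n then conj (QQ n ⟨b + 1, h⟩ i) else 0) *
      QQ n b j := by
  rw [MM_apply, Finset.sum_comm]
  refine Finset.sum_congr rfl fun b _ => ?_
  by_cases h : (b : ℕ) + 1 < n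
  · rw [dif_pos h, Finset.sum_eq_single (⟨b + 1, h⟩ : Fin n)]
    · simp [JJ]
    · intro c _ hc
      unfold JJ
      rw [Matrix.of_apply, if_neg, mul_zero, zero_mul]
      intro h'
      exact hc (Fin.ext h')
    · simp
  · rw [dif_neg h, zero_mul]
    refine Finset.sum_eq_zero fun c _ => ?_
    unfold JJ
    rw [Matrix.of_apply, if_neg, mul_zero, zero_mul]
    have := c.2
    omega

lemma MM_expand {n : ℕ} (i j : Fin n) :
    MM n i j = pp j * (if h : (j : ℕ) + 1 < n then conj (QQ n ⟨j + 1, h⟩ i) else 0) +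
      qq j * (if h : (j.rev : ℕ) + 1 < n then conj (QQ n ⟨j.rev + 1, h⟩ i) else 0) := by
  rw [MM_entry]
  have : ∀ b : Fin n, (if h : (b : ℕ) + 1 < n then conj (QQ n ⟨b + 1, h⟩ i) else 0) * QQ n b j =
      (if b = j then pp j * (if h : (b : ℕ) + 1 < n then conj (QQ n ⟨b + 1, h⟩ i) else 0) else 0) +
      (if b = j.rev then qq j * (if h : (b : ℕ) + 1 < n then conj (QQ n ⟨b + 1, h⟩ i) else 0)
        else 0) := by
    intro b
    change _ * (pp j * (if b = j then 1 else 0) + qq j * (if b = j.rev then 1 else 0)) = _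
    split_ifs <;> ring
  simp only [this, Finset.sum_add_distrib, Finset.sum_ite_eq', Finset.mem_univ, if_true]

theorem MM_not {n : ℕ} (hn : 3 ≤ n) : ¬ HasClarkForm (MM n) := by
  set i0 : Fin n := ⟨0, by omega⟩ with hi0
  set i1 : Fin n := ⟨1, by omega⟩ with hi1
  set i2 : Fin n := ⟨n - 1, by omega⟩ with hi2
  have h01 : i0 ≠ i1 := by simp [hi0, hi1]
  have h02 : i0 ≠ i2 := by
    intro h
    have := congrArg Fin.val h
    simp only [hi0, hi2] at this
    omega
  have h12 : i1 ≠ i2 := by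
    intro h
    have := congrArg Fin.val h
    simp only [hi1, hi2] at this
    omega
  have r20 : i2.rev = i0 := by
    apply Fin.ext
    rw [Fin.val_rev]
    simp only [hi0, hi2]
    omega
  have r02 : i0.rev = i2 := by rw [← r20, Fin.rev_rev]
  have lt02 : i0 < i2 := by
    rw [Fin.lt_def]
    simp only [hi0, hi2]
    omega
  have p0 : pp i0 = r2 := by unfold pp; rw [r02, if_pos lt02]
  have q0 : qq i0 = r2 := by unfold qq; rw [r02, if_pos lt02]
  have p2 : pp i2 = -(Complex.I * r2) := by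
    unfold pp; rw [r20, if_neg (not_lt.2 lt02.le), if_neg h02.symm]
  have q2 : qq i2 = Complex.I * r2 := by
    unfold qq; rw [r20, if_neg (not_lt.2 lt02.le), if_neg h02.symm]
  have v1 : ((i1.rev : Fin n) : ℕ) = n - 2 := by
    rw [Fin.val_rev]
  have hr : (r2 : ℂ) * r2 = 1 / 2 := r2_sq
  -- entries of `QQ`
  have Q10 : QQ n i1 i0 = 0 := by
    unfold QQ
    rw [Matrix.of_apply, if_neg h01.symm, r02, if_neg h12]
    ring
  have Q20 : QQ n i2 i0 = r2 := by
    unfold QQ
    rw [Matrix.of_apply, if_neg h02.symm, r02, if_pos rfl, q0]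
    ring
  -- the entry at the middle
  obtain ⟨m, hm, hm0⟩ : ∃ m : ℝ, QQ n i1 i1 = m ∧ m ≠ 0 := by
    by_cases h : i1 = i1.rev
    · refine ⟨1, ?_, one_ne_zero⟩
      unfold QQ pp qq
      rw [Matrix.of_apply]
      simp [← h]
    · refine ⟨r2, ?_, r2_ne⟩
      have hlt : i1 < i1.rev := by
        rw [Fin.lt_def, v1]
        have : (i1 : ℕ) = 1 := rfl
        rw [this]
        have : n ≠ 3 := by
          intro h3
          apply h
          apply Fin.ext
          omega
        omega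
      unfold QQ pp qq
      rw [Matrix.of_apply]
      simp [h, hlt]
  have hm' : QQ n i1.rev i1 = m := by
    rw [QQ_real, hm, Complex.conj_ofReal]
  have m02 : MM n i0 i2 = 0 := by
    rw [MM_expand, r20]
    have e1 : ¬ ((i2 : ℕ) + 1 < n) := by simp only [hi2]; omega
    have e2 : (i0 : ℕ) + 1 < n := by simp only [hi0]; omega
    rw [dif_neg e1, dif_pos e2]
    have : (⟨(i0 : ℕ) + 1, e2⟩ : Fin n) = i1 := by apply Fin.ext; simp [hi0, hi1]
    rw [this, Q10]
    simp
  have m12 : MM n i1 i2 = Complex.I * ((r2 * m : ℝ) : ℂ) := by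
    rw [MM_expand, r20]
    have e1 : ¬ ((i2 : ℕ) + 1 < n) := by simp only [hi2]; omega
    have e2 : (i0 : ℕ) + 1 < n := by simp only [hi0]; omega
    rw [dif_neg e1, dif_pos e2]
    have : (⟨(i0 : ℕ) + 1, e2⟩ : Fin n) = i1 := by apply Fin.ext; simp [hi0, hi1]
    rw [this, hm, Complex.conj_ofReal, q2]
    push_cast
    ring
  have m10 : MM n i1 i0 = ((r2 * m : ℝ) : ℂ) := by
    rw [MM_expand, r02]
    have e1 : ¬ ((i2 : ℕ) + 1 < n) := by simp only [hi2]; omega
    have e2 : (i0 : ℕ) + 1 < n := by simp only [hi0]; omega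
    rw [dif_neg e1, dif_pos e2]
    have : (⟨(i0 : ℕ) + 1, e2⟩ : Fin n) = i1 := by apply Fin.ext; simp [hi0, hi1]
    rw [this, hm, Complex.conj_ofReal, p0]
    push_cast
    ring
  have m01 : MM n i0 i1 = ((r2 * m : ℝ) : ℂ) := by
    rw [← m10]
    have := congrFun (congrFun (MM_symm n) i0) i1
    rw [Matrix.transpose_apply] at this
    exact this.symm
  exact no_clark h01 h02 h12 (mul_ne_zero r2_ne hm0) (mul_ne_zero r2_ne hm0) m01 m12 m02

theorem final (n : ℕ) (hn : 3 ≤ n) : ∃ M : Matrix (Fin n) (Fin n) ℂ,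
    Mᵀ = M ∧ Irred M ∧ UETTO M ∧ ¬ HasClarkForm M :=
  ⟨MM n, MM_symm n, irred_QQ (by omega) _ (QQ_unitary n), ue_QQ _ (QQ_unitary n), MM_not hn⟩

end Pool.Agent.N293.CD
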