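import Mathlib

set_option autoImplicit false

open Filter Topology

namespace Pool.Agent.N293.FS

/-- the sequence space `ℓ²(ℕ)` -/
abbrev H : Type := lp (fun _ : ℕ => ℂ) 2

lemma two_pos' : 0 < (2 : ENNReal).toReal := by norm_num

lemma rpow_two (x : ℝ) : x ^ (2 : ENNReal).toReal = x ^ 2 := by
  have : (2 : ENNReal).toReal = 2 := by norm_num
  rw [this]
  norm_cast

lemma hasSum_sq (x : H) : HasSum (fun i => ‖x i‖ ^ 2) (‖x‖ ^ 2) := by
  have h := lp.hasSum_norm two_pos' x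
  simpa only [rpow_two] using h

lemma sum_sq_le (x : H) (s : Finset ℕ) : ∑ i ∈ s, ‖x i‖ ^ 2 ≤ ‖x‖ ^ 2 :=
  sum_le_hasSum s (fun _ _ => by positivity) (hasSum_sq x)

lemma coord_le (x : H) (i : ℕ) : ‖x i‖ ≤ ‖x‖ := by
  have h := sum_sq_le x {i}
  rw [Finset.sum_singleton] at h
  exact le_of_sq_le_sq h (norm_nonneg _)

lemma norm_le_of {x : H} {C : ℝ} (hC : 0 ≤ C)
    (h : ∀ s : Finset ℕ, ∑ i ∈ s, ‖x i‖ ^ 2 ≤ C ^ 2) : ‖x‖ ≤ C := by
  refine lp.norm_le_of_forall_sum_le two_pos' hC fun s => ?_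
  simpa only [rpow_two] using h s

/-- a sequence with bounded partial sums of squares as an element of `ℓ²` -/
def mkH (f : ℕ → ℂ) (C : ℝ) (h : ∀ s : Finset ℕ, ∑ i ∈ s, ‖f i‖ ^ 2 ≤ C) : H :=
  ⟨f, memℓp_gen' (C := C) fun s => by simpa only [rpow_two] using h s⟩

@[simp] lemma mkH_apply (f : ℕ → ℂ) (C : ℝ) (h : ∀ s : Finset ℕ, ∑ i ∈ s, ‖f i‖ ^ 2 ≤ C) (j : ℕ) :
    mkH f C h j = f j := rfl

/-- an operator on `ℓ²` given by its action on coordinates -/
noncomputable def mkOp (f : (ℕ → ℂ) →ₗ[ℂ] (ℕ → ℂ))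
    (h : ∀ (x : H) (s : Finset ℕ), ∑ i ∈ s, ‖f (⇑x) i‖ ^ 2 ≤ ‖x‖ ^ 2) : H →L[ℂ] H :=
  LinearMap.mkContinuous
    { toFun := fun x => mkH (f ⇑x) _ (h x)
      map_add' := fun x y => by
        ext i
        simp only [mkH_apply, lp.coeFn_add, map_add, Pi.add_apply]
      map_smul' := fun c x => by
        ext i
        simp only [mkH_apply, lp.coeFn_smul, map_smul, Pi.smul_apply, RingHom.id_apply] }
    1 (fun x => by
      rw [one_mul]
      refine norm_le_of (norm_nonneg _) fun s => ?_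
      exact h x s)

lemma mkOp_apply (f : (ℕ → ℂ) →ₗ[ℂ] (ℕ → ℂ))
    (h : ∀ (x : H) (s : Finset ℕ), ∑ i ∈ s, ‖f (⇑x) i‖ ^ 2 ≤ ‖x‖ ^ 2) (x : H) (j : ℕ) :
    mkOp f h x j = f (⇑x) j := rfl

lemma mkOp_norm (f : (ℕ → ℂ) →ₗ[ℂ] (ℕ → ℂ))
    (h : ∀ (x : H) (s : Finset ℕ), ∑ i ∈ s, ‖f (⇑x) i‖ ^ 2 ≤ ‖x‖ ^ 2) (x : H) :
    ‖mkOp f h x‖ ≤ ‖x‖ := by
  have := (mkOp f h).le_of_opNorm_le (LinearMap.mkContinuous_norm_le _ zero_le_one _) x
  rwa [one_mul] at this

/-- truncation -/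
def pf (n : ℕ) : (ℕ → ℂ) →ₗ[ℂ] (ℕ → ℂ) where
  toFun x j := if j ≤ n then x j else 0
  map_add' x y := by
    funext j
    simp only [Pi.add_apply]
    split_ifs <;> simp
  map_smul' c x := by
    funext j
    simp only [Pi.smul_apply, smul_eq_mul, RingHom.id_apply]
    split_ifs <;> simp

/-- flip -/
def wf (n : ℕ) : (ℕ → ℂ) →ₗ[ℂ] (ℕ → ℂ) where
  toFun x j := if j ≤ n then x (n - j) else 0
  map_add' x y := by
    funext j
    simp only [Pi.add_apply]
    split_ifs <;> simp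
  map_smul' c x := by
    funext j
    simp only [Pi.smul_apply, smul_eq_mul, RingHom.id_apply]
    split_ifs <;> simp

lemma pf_bd (n : ℕ) (x : H) (s : Finset ℕ) : ∑ i ∈ s, ‖pf n (⇑x) i‖ ^ 2 ≤ ‖x‖ ^ 2 := by
  refine le_trans (Finset.sum_le_sum fun i _ => ?_) (sum_sq_le x s)
  simp only [pf, LinearMap.coe_mk, AddHom.coe_mk]
  split_ifs
  · exact le_rfl
  · simp

lemma wf_bd (n : ℕ) (x : H) (s : Finset ℕ) : ∑ i ∈ s, ‖wf n (⇑x) i‖ ^ 2 ≤ ‖x‖ ^ 2 := by
  have h1 : ∑ i ∈ s, ‖wf n (⇑x) i‖ ^ 2 = ∑ i ∈ s.filter (· ≤ n), ‖x (n - i)‖ ^ 2 := by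
    rw [Finset.sum_filter]
    refine Finset.sum_congr rfl fun i _ => ?_
    simp only [wf, LinearMap.coe_mk, AddHom.coe_mk]
    split_ifs <;> simp
  rw [h1]
  have h2 : ∑ i ∈ s.filter (· ≤ n), ‖x (n - i)‖ ^ 2 =
      ∑ i ∈ (s.filter (· ≤ n)).image (fun i => n - i), ‖x i‖ ^ 2 := by
    rw [Finset.sum_image]
    intro a ha b hb hab
    simp only [Finset.coe_filter, Set.mem_ofPred_eq] at ha hb
    simp only at hab
    omega
  rw [h2]
  exact sum_sq_le x _

/-- the projection `P_n` -/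
noncomputable def P (n : ℕ) : H →L[ℂ] H := mkOp (pf n) (pf_bd n)

/-- the flip `W_n` -/
noncomputable def W (n : ℕ) : H →L[ℂ] H := mkOp (wf n) (wf_bd n)

lemma P_apply (n : ℕ) (x : H) (j : ℕ) : (P n x) j = if j ≤ n then x j else 0 := rfl

lemma W_apply (n : ℕ) (x : H) (j : ℕ) : (W n x) j = if j ≤ n then x (n - j) else 0 := rfl

lemma P_norm (n : ℕ) (x : H) : ‖P n x‖ ≤ ‖x‖ := mkOp_norm _ _ x

lemma W_norm (n : ℕ) (x : H) : ‖W n x‖ ≤ ‖x‖ := mkOp_norm _ _ x

lemma PP (n : ℕ) (x : H) : P n (P n x) = P n x := by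
  ext j
  simp only [P_apply]
  split_ifs <;> simp

lemma WW (n : ℕ) (x : H) : W n (W n x) = P n x := by
  ext j
  simp only [W_apply, P_apply]
  split_ifs with h1 h2
  · rw [Nat.sub_sub_self h1]
  · omega
  · rfl

lemma WP (n : ℕ) (x : H) : W n (P n x) = W n x := by
  ext j
  simp only [W_apply, P_apply]
  split_ifs with h1 h2
  · rfl
  · omega
  · rfl

lemma PW (n : ℕ) (x : H) : P n (W n x) = W n x := by
  ext j
  simp only [W_apply, P_apply]
  split_ifs <;> rfl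

lemma W_norm_eq (n : ℕ) (x : H) : ‖W n x‖ = ‖P n x‖ := by
  apply le_antisymm
  · rw [← WP]; exact W_norm _ _
  · rw [← WW]; exact W_norm _ _

lemma inner_eq (x y : H) : inner ℂ x y = ∑' i, inner ℂ (x i) (y i) := lp.inner_eq_tsum x y

lemma hasSum_inner' (x y : H) : HasSum (fun i => inner ℂ (x i) (y i)) (inner ℂ x y) :=
  lp.hasSum_inner x y

lemma inner_P (n : ℕ) (x y : H) : inner ℂ (P n x) y = inner ℂ x (P n y) := by
  rw [inner_eq, inner_eq]
  refine tsum_congr fun i => ?_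
  simp only [P_apply]
  split_ifs <;> simp

lemma P_eq_self {n : ℕ} {x : H} (h : ∀ j, n < j → x j = 0) : P n x = x := by
  ext j
  rw [P_apply]
  split_ifs with h1
  · rfl
  · exact (h j (by omega)).symm

lemma P_tendsto (x : H) : Tendsto (fun n => P n x) atTop (𝓝 x) := by
  have h := (lp.hasSum_single (p := 2) (by norm_num) x).tendsto_sum_nat
  have h2 : ∀ n, P n x = ∑ i ∈ Finset.range (n + 1), lp.single 2 i (x i) := by
    intro n
    ext j
    rw [P_apply, lp.coeFn_sum, Finset.sum_apply]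
    simp only [lp.single_apply]
    by_cases hj : j ≤ n
    · rw [if_pos hj, Finset.sum_eq_single j]
      · simp
      · intro b _ hb
        rw [Pi.single_eq_of_ne (Ne.symm hb)]
      · intro h; exact absurd (Finset.mem_range.2 (by omega)) h
    · rw [if_neg hj, Finset.sum_eq_zero]
      intro b hb
      rw [Finset.mem_range] at hb
      rw [Pi.single_eq_of_ne]
      omega
  have h3 := h.comp (tendsto_add_atTop_nat 1)
  refine h3.congr fun n => ?_
  rw [h2]
  rfl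

/-- a bounded sequence whose coordinates tend to zero is weakly null -/
lemma weak_null {u : ℕ → H} {C : ℝ} (hC : ∀ n, ‖u n‖ ≤ C)
    (h : ∀ j, Tendsto (fun n => u n j) atTop (𝓝 0)) (y : H) :
    Tendsto (fun n => inner ℂ y (u n)) atTop (𝓝 0) := by
  have hC0 : 0 ≤ C := (norm_nonneg _).trans (hC 0)
  rw [Metric.tendsto_atTop]
  intro ε hε
  obtain ⟨m, hm⟩ : ∃ m, ‖y - P m y‖ * C < ε / 2 := by
    have h1 : Tendsto (fun m => ‖y - P m y‖ * C) atTop (𝓝 0) := by
      have : Tendsto (fun m => ‖y - P m y‖) atTop (𝓝 ‖y - y‖) :=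
        (tendsto_const_nhds.sub (P_tendsto y)).norm
      rw [sub_self, norm_zero] at this
      simpa using this.mul_const C
    exact ((h1.eventually (gt_mem_nhds (half_pos hε))).exists)
  have h2 : Tendsto (fun n => inner ℂ (P m y) (u n)) atTop (𝓝 0) := by
    have h3 : ∀ n, inner ℂ (P m y) (u n) = ∑ i ∈ Finset.range (m + 1), inner ℂ (y i) (u n i) := by
      intro n
      rw [inner_eq, tsum_eq_sum (s := Finset.range (m + 1))]
      · refine Finset.sum_congr rfl fun i hi => ?_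
        rw [Finset.mem_range] at hi
        rw [P_apply, if_pos (by omega)]
      · intro i hi
        rw [Finset.mem_range] at hi
        rw [P_apply, if_neg (by omega), inner_zero_left]
    simp only [h3]
    rw [show (0 : ℂ) = ∑ i ∈ Finset.range (m + 1), inner ℂ (y i) (0 : ℂ) by simp]
    refine tendsto_finsetSum _ fun i _ => ?_
    exact tendsto_const_nhds.inner (h i)
  rw [Metric.tendsto_atTop] at h2
  obtain ⟨N, hN⟩ := h2 (ε / 2) (half_pos hε)
  refine ⟨N, fun n hn => ?_⟩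
  have h4 := hN n hn
  rw [dist_zero_right] at h4 ⊢
  have h5 : inner ℂ y (u n) = inner ℂ (y - P m y) (u n) + inner ℂ (P m y) (u n) := by
    rw [← inner_add_left, sub_add_cancel]
  rw [h5]
  calc ‖inner ℂ (y - P m y) (u n) + inner ℂ (P m y) (u n)‖
      ≤ ‖inner ℂ (y - P m y) (u n)‖ + ‖inner ℂ (P m y) (u n)‖ := norm_add_le _ _
    _ ≤ ‖y - P m y‖ * ‖u n‖ + ‖inner ℂ (P m y) (u n)‖ := by
        gcongr; exact norm_inner_le_norm _ _
    _ ≤ ‖y - P m y‖ * C + ‖inner ℂ (P m y) (u n)‖ := by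
        gcongr; exact hC n
    _ < ε / 2 + ε / 2 := by gcongr
    _ = ε := by ring

/-- a compact operator maps weakly null bounded sequences to null sequences -/
lemma compact_null {K : H →L[ℂ] H} (hK : IsCompactOperator K) {u : ℕ → H} {C : ℝ}
    (hC : ∀ n, ‖u n‖ ≤ C) (h : ∀ j, Tendsto (fun n => u n j) atTop (𝓝 0)) :
    Tendsto (fun n => K (u n)) atTop (𝓝 0) := by
  obtain ⟨S, hS, hSK⟩ := IsCompactOperator.image_closedBall_subset_compact
    (f := (K : H →ₗ[ℂ] H)) hK C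
  have hmem : ∀ n, K (u n) ∈ S := fun n => hSK ⟨u n, by
    rw [Metric.mem_closedBall, dist_zero_right]; exact hC n, rfl⟩
  refine tendsto_of_subseq_tendsto fun ns hns => ?_
  obtain ⟨z, -, φ, hφ, hz⟩ := hS.tendsto_subseq (x := fun n => K (u (ns n))) (fun n => hmem _)
  refine ⟨φ, ?_⟩
  have hz0 : z = 0 := by
    have h1 : ∀ y : H, inner ℂ y z = 0 := by
      intro y
      have h2 : Tendsto (fun n => inner ℂ y (K (u (ns (φ n))))) atTop (𝓝 (inner ℂ y z)) :=
        tendsto_const_nhds.inner hz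
      have h3 : Tendsto (fun n => inner ℂ (ContinuousLinearMap.adjoint K y) (u (ns (φ n)))) atTop
          (𝓝 0) := (weak_null hC h _).comp (hns.comp hφ.tendsto_atTop)
      simp only [ContinuousLinearMap.adjoint_inner_left] at h3
      exact tendsto_nhds_unique h2 h3
    exact inner_self_eq_zero.1 (h1 z)
  rw [← hz0]
  exact hz

lemma W_coord (x : H) (j : ℕ) : Tendsto (fun n => (W n x) j) atTop (𝓝 0) := by
  have h1 : Tendsto (fun m => x m) atTop (𝓝 0) := by
    have h2 := (hasSum_sq x).summable.tendsto_atTop_zero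
    rw [tendsto_zero_iff_norm_tendsto_zero]
    have h3 := h2.sqrt
    simpa [Real.sqrt_sq] using h3
  have h2 : Tendsto (fun n => x (n - j)) atTop (𝓝 0) := h1.comp (tendsto_sub_atTop_nat j)
  refine h2.congr' ?_
  filter_upwards [eventually_ge_atTop j] with n hn
  rw [W_apply, if_pos hn]

end Pool.Agent.N293.FS
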