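import Mathlib

set_option autoImplicit false

open Filter Topology MeasureTheory

namespace Pool.Agent.N293.FS

/-- the circle `ℝ / ℤ` -/
abbrev Ci : Type := AddCircle (1 : ℝ)

lemma norm_fourier (n : ℤ) (t : Ci) : ‖fourier n t‖ = 1 := by
  rw [fourier_apply, Circle.norm_coe]

lemma fourier_pow (m : ℕ) (t : Ci) : (fourier 1 t) ^ m = fourier (m : ℤ) t := by
  induction m with
  | zero => simp
  | succ m ih =>
    rw [pow_succ, ih, ← fourier_add]
    push_cast
    rfl

section general

variable (F : ℂ → ℂ)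

/-- Taylor coefficients -/
noncomputable def tc (m : ℕ) : ℂ := ((m.factorial : ℂ))⁻¹ * iteratedDeriv m F 0

variable {F}

lemma hasSum_tc (hF : DifferentiableOn ℂ F (Metric.ball 0 1)) {z : ℂ} (hz : ‖z‖ < 1) :
    HasSum (fun m => tc F m * z ^ m) (F z) := by
  have h := Complex.hasSum_taylorSeries_on_ball hF (z := z) (by simpa using hz)
  refine h.congr_fun ?_ |> fun h' => h'
  intro m
  simp only [tc, sub_zero, smul_eq_mul]
  ring

lemma coeff_r (hF : DifferentiableOn ℂ F (Metric.ball 0 1)) {r : ℝ} (h0 : 0 ≤ r) (h1 : r < 1)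
    (n : ℤ) : fourierCoeff (fun t : Ci => F (r * fourier 1 t)) n =
      if 0 ≤ n then tc F n.toNat * (r : ℂ) ^ n.toNat else 0 := by
  have hr : ‖(r : ℂ)‖ < 1 := by rw [Complex.norm_real, Real.norm_of_nonneg h0]; exact h1
  have hs : Summable (fun m => ‖tc F m * (r : ℂ) ^ m‖) := (hasSum_tc hF hr).summable.norm
  have hterm : ∀ (t : Ci), F (r * fourier 1 t) =
      ∑' m : ℕ, (tc F m * (r : ℂ) ^ m) * fourier (m : ℤ) t := by
    intro t
    have hz : ‖(r : ℂ) * fourier 1 t‖ < 1 := by rw [norm_mul, norm_fourier, mul_one]; exact hr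
    rw [← (hasSum_tc hF hz).tsum_eq]
    refine tsum_congr fun m => ?_
    rw [mul_pow, fourier_pow, mul_assoc]
  unfold fourierCoeff
  have e1 : ∀ t : Ci, fourier (-n) t • F (r * fourier 1 t) =
      ∑' m : ℕ, fourier (-n) t • ((tc F m * (r : ℂ) ^ m) * fourier (m : ℤ) t) := by
    intro t
    rw [hterm t, tsum_const_smul'']
  simp only [e1]
  have hint : ∀ m : ℕ, Integrable
      (fun t : Ci => fourier (-n) t • ((tc F m * (r : ℂ) ^ m) * fourier (m : ℤ) t))
      (AddCircle.haarAddCircle (T := (1 : ℝ))) := by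
    intro m
    refine Continuous.integrable_of_hasCompactSupport ?_ (HasCompactSupport.of_compactSpace _)
    fun_prop
  have hsum := hasSum_integral_of_summable_integral_norm hint (by
    refine hs.congr fun m => ?_
    have : ∀ t : Ci, ‖fourier (-n) t • ((tc F m * (r : ℂ) ^ m) * fourier (m : ℤ) t)‖ =
        ‖tc F m * (r : ℂ) ^ m‖ := by
      intro t
      rw [norm_smul, norm_mul (tc F m * (r : ℂ) ^ m), norm_fourier, norm_fourier, one_mul, mul_one]
    simp only [this]
    simp)
  have hval : ∀ m : ℕ, ∫ t : Ci, fourier (-n) t • ((tc F m * (r : ℂ) ^ m) * fourier (m : ℤ) t)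
      ∂(AddCircle.haarAddCircle (T := (1 : ℝ))) =
      if (m : ℤ) = n then tc F m * (r : ℂ) ^ m else 0 := by
    intro m
    have h2 := fourierCoeff.const_mul (T := (1 : ℝ)) (fun t => fourier (m : ℤ) t)
      (tc F m * (r : ℂ) ^ m) n
    have h3 : fourierCoeff (T := (1 : ℝ)) (fun t => fourier (m : ℤ) t) n =
        (Pi.single (m : ℤ) (1 : ℂ) : ℤ → ℂ) n :=
      congrFun (fourierCoeff_fourier (T := (1 : ℝ)) (m : ℤ)) n
    rw [h3] at h2
    unfold fourierCoeff at h2
    rw [h2]
    split_ifs with h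
    · rw [h, Pi.single_eq_same, mul_one]
    · rw [Pi.single_eq_of_ne (Ne.symm h), mul_zero]
  simp only [hval] at hsum
  rw [← hsum.tsum_eq]
  split_ifs with hn
  · rw [tsum_eq_single n.toNat]
    · rw [if_pos (Int.toNat_of_nonneg hn)]
    · intro b hb
      rw [if_neg]
      intro h
      apply hb
      omega
  · have h0 : ∀ b : ℕ, (if (b : ℤ) = n then tc F b * (r : ℂ) ^ b else 0) = 0 := by
      intro b
      rw [if_neg]
      omega
    simp only [h0, tsum_zero]

/-- Fourier coefficients of boundary functions -/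
lemma coeff_boundary (hF : DifferentiableOn ℂ F (Metric.ball 0 1))
    (hb : ∀ z, ‖z‖ < 1 → ‖F z‖ ≤ 1) (f : Ci → ℂ)
    (hf : ∀ᵐ t ∂(AddCircle.haarAddCircle (T := (1 : ℝ))),
      Tendsto (fun r : ℝ => F (r * fourier 1 t)) (𝓝[<] 1) (𝓝 (f t))) (n : ℤ) :
    fourierCoeff f n = if 0 ≤ n then tc F n.toNat else 0 := by
  have hIoo : Set.Ioo (0 : ℝ) 1 ∈ 𝓝[<] (1 : ℝ) := Ioo_mem_nhdsLT one_pos
  have h1 : Tendsto (fun r : ℝ => fourierCoeff (fun t : Ci => F (r * fourier 1 t)) n) (𝓝[<] 1)
      (𝓝 (fourierCoeff f n)) := by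
    unfold fourierCoeff
    refine tendsto_integral_filter_of_dominated_convergence (fun _ => (1 : ℝ)) ?_ ?_
      (integrable_const _) ?_
    · filter_upwards [hIoo] with r hr
      refine Continuous.aestronglyMeasurable ?_
      have hc : Continuous (fun t : Ci => F (r * fourier 1 t)) := by
        refine hF.continuousOn.comp_continuous (by fun_prop) fun t => ?_
        rw [mem_ball_zero_iff, norm_mul, norm_fourier, mul_one, Complex.norm_real,
          Real.norm_of_nonneg hr.1.le]
        exact hr.2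
      exact (map_continuous (fourier (-n))).smul hc
    · filter_upwards [hIoo] with r hr
      refine Eventually.of_forall fun t => ?_
      rw [norm_smul, norm_fourier, one_mul]
      apply hb
      rw [norm_mul, norm_fourier, mul_one, Complex.norm_real, Real.norm_of_nonneg hr.1.le]
      exact hr.2
    · filter_upwards [hf] with t ht
      exact ht.const_smul _
  have h2 : Tendsto (fun r : ℝ => fourierCoeff (fun t : Ci => F (r * fourier 1 t)) n) (𝓝[<] 1)
      (𝓝 (if 0 ≤ n then tc F n.toNat else 0)) := by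
    have h3 : Tendsto (fun r : ℝ => if 0 ≤ n then tc F n.toNat * (r : ℂ) ^ n.toNat else 0)
        (𝓝[<] 1) (𝓝 (if 0 ≤ n then tc F n.toNat else 0)) := by
      split_ifs
      · have : Tendsto (fun r : ℝ => tc F n.toNat * (r : ℂ) ^ n.toNat) (𝓝 1)
            (𝓝 (tc F n.toNat * ((1 : ℝ) : ℂ) ^ n.toNat)) := by
          apply Continuous.tendsto
          fun_prop
        rw [Complex.ofReal_one, one_pow, mul_one] at this
        exact this.mono_left nhdsWithin_le_nhds
      · exact tendsto_const_nhds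
    refine h3.congr' ?_
    filter_upwards [hIoo] with r hr
    rw [coeff_r hF hr.1.le hr.2]
  exact tendsto_nhds_unique h1 h2

end general

/-- the singular inner function -/
noncomputable def Gd (z : ℂ) : ℂ := Complex.exp (-((1 + z) / (1 - z)))

lemma re_cayley (z : ℂ) : ((1 + z) / (1 - z)).re = (1 - Complex.normSq z) / Complex.normSq (1 - z) := by
  rw [Complex.div_re, ← add_div]
  congr 1
  simp [Complex.normSq_apply]
  ring

lemma norm_Gd (z : ℂ) : ‖Gd z‖ = Real.exp (-((1 - Complex.normSq z) / Complex.normSq (1 - z))) := by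
  rw [Gd, Complex.norm_exp, Complex.neg_re, re_cayley]

lemma norm_Gd_le {z : ℂ} (hz : ‖z‖ < 1) : ‖Gd z‖ ≤ 1 := by
  rw [norm_Gd, Real.exp_le_one_iff, neg_nonpos]
  apply div_nonneg _ (Complex.normSq_nonneg _)
  rw [Complex.normSq_eq_norm_sq]
  nlinarith [norm_nonneg z]

lemma norm_Gd_circle {z : ℂ} (hz : ‖z‖ = 1) : ‖Gd z‖ = 1 := by
  rw [norm_Gd, Complex.normSq_eq_norm_sq, hz]
  simp

lemma Gd_diff : DifferentiableOn ℂ Gd (Metric.ball 0 1) := by
  intro z hz
  have hne : (1 : ℂ) - z ≠ 0 := by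
    intro h
    have : z = 1 := by linear_combination -h
    rw [this] at hz
    simp at hz
  apply DifferentiableAt.differentiableWithinAt
  unfold Gd
  refine DifferentiableAt.cexp (DifferentiableAt.neg (DifferentiableAt.div ?_ ?_ hne)) <;> fun_prop

lemma Gd_contAt {z : ℂ} (hz : z ≠ 1) : ContinuousAt Gd z := by
  have hne : (1 : ℂ) - z ≠ 0 := fun h => hz (by linear_combination -h)
  unfold Gd
  exact Complex.continuous_exp.continuousAt.comp
    (ContinuousAt.neg (ContinuousAt.div (by fun_prop) (by fun_prop) hne))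

/-- the boundary function -/
noncomputable def gf (t : Ci) : ℂ := Gd (fourier 1 t)

lemma norm_gf (t : Ci) : ‖gf t‖ = 1 := norm_Gd_circle (norm_fourier 1 t)

lemma gf_meas : Measurable gf := by
  unfold gf Gd
  have h : Measurable (fun t : Ci => fourier 1 t) := (by fun_prop : Continuous _).measurable
  exact Complex.measurable_exp.comp (((measurable_const.add h).div (measurable_const.sub h)).neg)

lemma fourier_one_eq_one {t : Ci} (h : fourier 1 t = (1 : ℂ)) : t = 0 := by
  rw [fourier_one] at h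
  have h2 : AddCircle.toCircle t = AddCircle.toCircle (0 : Ci) := by
    rw [AddCircle.toCircle_zero]
    exact Circle.coe_eq_one.1 h
  exact AddCircle.injective_toCircle one_ne_zero h2

lemma vol_zero : (volume : Measure Ci) {0} = 0 := by
  have h : ∀ ε : ℝ, 0 < ε → (volume : Measure Ci) {0} ≤ ENNReal.ofReal (2 * ε) := by
    intro ε hε
    calc (volume : Measure Ci) {0} ≤ volume (Metric.closedBall (0 : Ci) ε) := by
          apply measure_mono
          rw [Set.singleton_subset_iff]
          exact Metric.mem_closedBall_self hε.le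
      _ = ENNReal.ofReal (min 1 (2 * ε)) := AddCircle.volume_closedBall 1 ε
      _ ≤ ENNReal.ofReal (2 * ε) := ENNReal.ofReal_le_ofReal (min_le_right _ _)
  refine le_antisymm (le_of_forall_pos_le_add fun ε hε => ?_) zero_le
  rw [zero_add]
  by_cases hT : ε = ⊤
  · rw [hT]; exact le_top
  have h1 : 0 < ε.toReal := ENNReal.toReal_pos hε.ne' hT
  refine (h (ε.toReal / 2) (half_pos h1)).trans ?_
  rw [mul_div_cancel₀ _ two_ne_zero, ENNReal.ofReal_toReal hT]

lemma gf_lim : ∀ᵐ t ∂(AddCircle.haarAddCircle (T := (1 : ℝ))),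
      Tendsto (fun r : ℝ => Gd (r * fourier 1 t)) (𝓝[<] 1) (𝓝 (gf t)) := by
  have h0 : ∀ᵐ t ∂(AddCircle.haarAddCircle (T := (1 : ℝ))), t ≠ (0 : Ci) := by
    rw [ae_iff]
    simp only [ne_eq, not_not, Set.ofPred_eq_eq_singleton]
    have h := AddCircle.volume_eq_smul_haarAddCircle (T := (1 : ℝ))
    rw [ENNReal.ofReal_one, one_smul] at h
    rw [← h]
    exact vol_zero
  filter_upwards [h0] with t ht
  have h1 : (fourier 1 t : ℂ) ≠ 1 := fun h => ht (fourier_one_eq_one h)
  have h2 : Tendsto (fun r : ℝ => (r : ℂ) * fourier 1 t) (𝓝 1) (𝓝 (((1 : ℝ) : ℂ) * fourier 1 t)) := by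
    apply Continuous.tendsto
    fun_prop
  rw [Complex.ofReal_one, one_mul] at h2
  exact (Gd_contAt h1).tendsto.comp (h2.mono_left nhdsWithin_le_nhds)

/-- Taylor coefficients of the singular inner function -/
noncomputable def cf (m : ℕ) : ℂ := tc Gd m

lemma fc_gf (n : ℤ) : fourierCoeff gf n = if 0 ≤ n then cf n.toNat else 0 :=
  coeff_boundary Gd_diff (fun _ => norm_Gd_le) gf gf_lim n

lemma gf_neg (t : Ci) : gf (-t) = starRingEnd ℂ (gf t) := by
  have h1 : (fourier 1 (-t) : ℂ) = starRingEnd ℂ (fourier 1 t) := by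
    rw [← fourier_neg, fourier_apply, fourier_apply]
    simp
  unfold gf Gd
  rw [h1, ← Complex.exp_conj]
  simp

lemma fc_real (n : ℤ) : starRingEnd ℂ (fourierCoeff gf n) = fourierCoeff gf n := by
  unfold fourierCoeff
  rw [← integral_conj]
  rw [← integral_neg_eq_self]
  refine integral_congr_ae (Eventually.of_forall fun t => ?_)
  simp only [smul_eq_mul, map_mul]
  rw [gf_neg, ← fourier_neg]
  have : (fourier (- -n) (-t) : ℂ) = fourier (-n) t := by
    rw [fourier_apply, fourier_apply]
    simp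
  rw [this, Complex.conj_conj]

lemma cf_real (m : ℕ) : starRingEnd ℂ (cf m) = cf m := by
  have h := fc_real m
  rwa [fc_gf, if_pos (Int.natCast_nonneg m), Int.toNat_natCast] at h

lemma fc_conj (n : ℤ) : fourierCoeff (fun t => starRingEnd ℂ (gf t)) n = fourierCoeff gf (-n) := by
  rw [← fc_real]
  unfold fourierCoeff
  rw [← integral_conj]
  refine integral_congr_ae (Eventually.of_forall fun t => ?_)
  simp only [smul_eq_mul, map_mul]
  rw [← fourier_neg, neg_neg]

lemma hasSum_Gd {r : ℝ} (h0 : 0 ≤ r) (h1 : r < 1) :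
    HasSum (fun m => cf m * (r : ℂ) ^ m) (Gd r) := by
  refine hasSum_tc Gd_diff ?_
  rw [Complex.norm_real, Real.norm_of_nonneg h0]
  exact h1

end Pool.Agent.N293.FS
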