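import Mathlib
import Pool.Agent.N293.FS1
import Pool.Agent.N293.FS2

set_option autoImplicit false

open Filter Topology MeasureTheory

namespace Pool.Agent.N293.FS

lemma fc_mul_fourier (h : Ci → ℂ) (c : ℂ) (k : ℕ) (j : ℤ) :
    fourierCoeff (fun t => c * (h t * fourier (k : ℤ) t)) j = c * fourierCoeff h (j - k) := by
  rw [fourierCoeff.const_mul]
  congr 1
  unfold fourierCoeff
  refine integral_congr_ae (Eventually.of_forall fun t => ?_)
  simp only [smul_eq_mul]
  have : (fourier (-(j - (k : ℤ))) t : ℂ) = fourier (-j) t * fourier (k : ℤ) t := by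
    rw [← fourier_add]
    congr 2
    ring
  rw [this]
  ring

lemma pars (h : Ci → ℂ) (hm : Measurable h) (hn : ∀ t, ‖h t‖ = 1) (x : ℕ → ℂ) (N : ℕ) :
    HasSum (fun j : ℤ => ‖∑ k ∈ Finset.range (N + 1), x k * fourierCoeff h (j - k)‖ ^ 2)
      (∫ t : Ci, ‖∑ k ∈ Finset.range (N + 1), x k * fourier (k : ℤ) t‖ ^ 2
        ∂(AddCircle.haarAddCircle (T := (1 : ℝ)))) := by
  set q : Ci → ℂ := fun t => ∑ k ∈ Finset.range (N + 1), x k * (h t * fourier (k : ℤ) t) with hq
  have hterm : ∀ k : ℕ, Measurable (fun t : Ci => x k * (h t * fourier (k : ℤ) t)) := by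
    intro k
    exact measurable_const.mul (hm.mul (map_continuous (fourier (k : ℤ))).measurable)
  have hqm : Measurable q := by
    rw [hq]
    exact Finset.measurable_fun_sum _ fun k _ => hterm k
  have hqb : ∀ t, ‖q t‖ ≤ ∑ k ∈ Finset.range (N + 1), ‖x k‖ := by
    intro t
    refine (norm_sum_le _ _).trans (Finset.sum_le_sum fun k _ => ?_)
    rw [norm_mul, norm_mul, hn, norm_fourier, mul_one, mul_one]
  have hq2 : MemLp q 2 (AddCircle.haarAddCircle (T := (1 : ℝ))) :=
    MemLp.of_bound hqm.aestronglyMeasurable _ (Eventually.of_forall hqb)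
  have H := hasSum_sq_fourierCoeff (hq2.toLp q)
  have hco : fourierCoeff (hq2.toLp q : Ci → ℂ) = fourierCoeff q :=
    fourierCoeff_congr_ae hq2.coeFn_toLp
  rw [hco] at H
  have hcq : ∀ j : ℤ, fourierCoeff q j =
      ∑ k ∈ Finset.range (N + 1), x k * fourierCoeff h (j - k) := by
    intro j
    have e : q = ∑ k ∈ Finset.range (N + 1), fun t => x k * (h t * fourier (k : ℤ) t) := by
      funext t
      rw [hq, Finset.sum_apply]
    rw [e, fourierCoeff.sum, Finset.sum_apply]
    · exact Finset.sum_congr rfl fun k _ => fc_mul_fourier h (x k) k j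
    · intro k _
      refine Integrable.of_bound (hterm k).aestronglyMeasurable (‖x k‖)
        (Eventually.of_forall fun t => ?_)
      rw [norm_mul, norm_mul, hn, norm_fourier, mul_one, mul_one]
  simp only [hcq] at H
  have hint : ∫ t : Ci, ‖(hq2.toLp q : Ci → ℂ) t‖ ^ 2 ∂(AddCircle.haarAddCircle (T := (1 : ℝ))) =
      ∫ t : Ci, ‖∑ k ∈ Finset.range (N + 1), x k * fourier (k : ℤ) t‖ ^ 2
        ∂(AddCircle.haarAddCircle (T := (1 : ℝ))) := by
    refine integral_congr_ae ?_
    filter_upwards [hq2.coeFn_toLp] with t ht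
    rw [ht]
    have : q t = h t * ∑ k ∈ Finset.range (N + 1), x k * fourier (k : ℤ) t := by
      rw [hq, Finset.mul_sum]
      refine Finset.sum_congr rfl fun k _ => ?_
      ring
    rw [this, norm_mul, hn, one_mul]
  rwa [hint] at H

lemma pars_one (x : ℕ → ℂ) (N : ℕ) :
    ∫ t : Ci, ‖∑ k ∈ Finset.range (N + 1), x k * fourier (k : ℤ) t‖ ^ 2
        ∂(AddCircle.haarAddCircle (T := (1 : ℝ))) = ∑ k ∈ Finset.range (N + 1), ‖x k‖ ^ 2 := by
  have H := pars (fun _ => 1) measurable_const (fun _ => by simp) x N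
  have hfc : ∀ n : ℤ, fourierCoeff (fun _ : Ci => (1 : ℂ)) n = (Pi.single 0 (1 : ℂ) : ℤ → ℂ) n := by
    intro n
    have := congrFun (fourierCoeff_fourier (T := (1 : ℝ)) 0) n
    rw [← this]
    congr 1
    funext t
    simp
  have hval : ∀ j : ℤ, ∑ k ∈ Finset.range (N + 1), x k * fourierCoeff (fun _ : Ci => (1 : ℂ)) (j - k) =
      ∑ k ∈ Finset.range (N + 1), if j = k then x k else 0 := by
    intro j
    refine Finset.sum_congr rfl fun k _ => ?_
    rw [hfc]
    by_cases hjk : j = k
    · rw [if_pos hjk, hjk, sub_self, Pi.single_eq_same, mul_one]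
    · rw [if_neg hjk, Pi.single_eq_of_ne (sub_ne_zero.2 hjk), mul_zero]
  simp only [hval] at H
  have H2 : HasSum (fun j : ℤ => ‖∑ k ∈ Finset.range (N + 1), if j = k then x k else 0‖ ^ 2)
      (∑ j ∈ (Finset.range (N + 1)).map (Nat.castEmbedding : ℕ ↪ ℤ),
        ‖∑ k ∈ Finset.range (N + 1), if j = (k : ℤ) then x k else 0‖ ^ 2) := by
    apply hasSum_sum_of_ne_finset_zero
    intro j hj
    rw [Finset.sum_eq_zero, norm_zero]
    · ring
    · intro k hk
      rw [if_neg]
      rintro rfl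
      apply hj
      rw [Finset.mem_map]
      exact ⟨k, hk, rfl⟩
  rw [H.unique H2, Finset.sum_map]
  refine Finset.sum_congr rfl fun k hk => ?_
  congr 2
  rw [Finset.sum_eq_single k]
  · simp
  · intro b _ hb
    rw [if_neg]
    intro h
    apply hb
    simp only [Nat.castEmbedding_apply] at h
    exact_mod_cast h.symm
  · intro h; exact absurd hk h

/-- the analytic Toeplitz matrix acting on sequences -/
noncomputable def tf : (ℕ → ℂ) →ₗ[ℂ] (ℕ → ℂ) where
  toFun x j := ∑ k ∈ Finset.range (j + 1), cf (j - k) * x k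
  map_add' x y := by
    funext j
    simp only [Pi.add_apply, mul_add, Finset.sum_add_distrib]
  map_smul' c x := by
    funext j
    simp only [Pi.smul_apply, smul_eq_mul, RingHom.id_apply, Finset.mul_sum]
    exact Finset.sum_congr rfl fun k _ => by ring

lemma tf_apply (x : ℕ → ℂ) (j : ℕ) : tf x j = ∑ k ∈ Finset.range (j + 1), cf (j - k) * x k := rfl

lemma pf_apply (n : ℕ) (x : ℕ → ℂ) (j : ℕ) : pf n x j = if j ≤ n then x j else 0 := rfl

lemma tf_pf (x : ℕ → ℂ) (N J : ℕ) :
    tf (pf N x) J = ∑ k ∈ Finset.range (N + 1), x k * fourierCoeff gf ((J : ℤ) - k) := by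
  rw [tf_apply]
  simp only [pf_apply, mul_ite, mul_zero]
  rw [← Finset.sum_filter]
  have h : ∀ k ∈ Finset.range (N + 1), x k * fourierCoeff gf ((J : ℤ) - k) =
      if k ≤ J then cf (J - k) * x k else 0 := by
    intro k _
    rw [fc_gf]
    by_cases hk : k ≤ J
    · rw [if_pos (by omega), if_pos hk, mul_comm]
      congr 2
      omega
    · rw [if_neg (by omega), if_neg hk, mul_zero]
  rw [Finset.sum_congr rfl h, ← Finset.sum_filter]
  refine Finset.sum_congr ?_ fun _ _ => rfl
  ext k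
  simp only [Finset.mem_filter, Finset.mem_range]
  omega

lemma hasSum_tf (x : ℕ → ℂ) (N : ℕ) :
    HasSum (fun J : ℕ => ‖tf (pf N x) J‖ ^ 2) (∑ k ∈ Finset.range (N + 1), ‖x k‖ ^ 2) := by
  have H := pars gf gf_meas norm_gf x N
  rw [pars_one] at H
  have hinj : Function.Injective (Nat.cast : ℕ → ℤ) := Nat.cast_injective
  rw [← hinj.hasSum_iff] at H
  · have e : (fun J : ℕ => ‖tf (pf N x) J‖ ^ 2) =
        ((fun j : ℤ => ‖∑ k ∈ Finset.range (N + 1), x k * fourierCoeff gf (j - k)‖ ^ 2) ∘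
          Nat.cast) := by
      funext J
      simp only [Function.comp]
      rw [tf_pf]
    rw [e]
    exact H
  · intro j hj
    have hneg : j < 0 := by
      by_contra h
      push Not at h
      exact hj ⟨j.toNat, Int.toNat_of_nonneg h⟩
    rw [Finset.sum_eq_zero, norm_zero]
    · ring
    · intro k _
      rw [fc_gf, if_neg (by omega), mul_zero]

lemma tf_pf_of_le (x : ℕ → ℂ) {N J : ℕ} (h : J ≤ N) : tf (pf N x) J = tf x J := by
  rw [tf_apply, tf_apply]
  refine Finset.sum_congr rfl fun k hk => ?_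
  rw [Finset.mem_range] at hk
  rw [pf_apply, if_pos (by omega)]

lemma tf_bd (x : H) (s : Finset ℕ) : ∑ i ∈ s, ‖tf (⇑x) i‖ ^ 2 ≤ ‖x‖ ^ 2 := by
  set N := s.sup id with hN
  have h1 : ∀ i ∈ s, ‖tf (⇑x) i‖ ^ 2 = ‖tf (pf N ⇑x) i‖ ^ 2 := by
    intro i hi
    rw [tf_pf_of_le]
    exact Finset.le_sup (f := id) hi
  rw [Finset.sum_congr rfl h1]
  refine (sum_le_hasSum s (fun _ _ => by positivity) (hasSum_tf (⇑x) N)).trans ?_
  exact sum_sq_le x _

/-- the analytic Toeplitz operator -/
noncomputable def T : H →L[ℂ] H := mkOp tf tf_bd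

lemma T_apply (x : H) (j : ℕ) : T x j = ∑ k ∈ Finset.range (j + 1), cf (j - k) * x k := rfl

lemma T_norm_P (x : H) (N : ℕ) : ‖T (P N x)‖ = ‖P N x‖ := by
  have h1 := hasSum_sq (T (P N x))
  have h2 := hasSum_tf (⇑x) N
  have h3 : HasSum (fun i => ‖P N x i‖ ^ 2) (∑ k ∈ Finset.range (N + 1), ‖x k‖ ^ 2) := by
    have : (∑ k ∈ Finset.range (N + 1), ‖x k‖ ^ 2) = ∑ k ∈ Finset.range (N + 1), ‖P N x k‖ ^ 2 := by
      refine Finset.sum_congr rfl fun k hk => ?_
      rw [Finset.mem_range] at hk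
      rw [P_apply, if_pos (by omega)]
    rw [this]
    apply hasSum_sum_of_ne_finset_zero
    intro b hb
    rw [Finset.mem_range] at hb
    rw [P_apply, if_neg (by omega), norm_zero]
    ring
  have h4 : ‖T (P N x)‖ ^ 2 = ‖P N x‖ ^ 2 := by
    rw [h1.unique h2, (hasSum_sq (P N x)).unique h3]
  exact (sq_eq_sq₀ (norm_nonneg _) (norm_nonneg _)).1 h4

lemma T_norm (x : H) : ‖T x‖ = ‖x‖ := by
  have h1 : Tendsto (fun N => ‖T (P N x)‖) atTop (𝓝 ‖T x‖) :=
    ((T.continuous.tendsto x).comp (P_tendsto x)).norm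
  have h2 : Tendsto (fun N => ‖P N x‖) atTop (𝓝 ‖x‖) := (P_tendsto x).norm
  simp only [T_norm_P] at h1
  exact tendsto_nhds_unique h1 h2

/-- the adjoint -/
noncomputable def Ta : H →L[ℂ] H := ContinuousLinearMap.adjoint T

lemma Ta_T (x : H) : Ta (T x) = x := by
  have h := (ContinuousLinearMap.norm_map_iff_adjoint_comp_self T).1 T_norm
  exact congrArg (fun f : H →L[ℂ] H => f x) h

lemma Ta_inner (x y : H) : inner ℂ (Ta x) y = inner ℂ x (T y) :=
  ContinuousLinearMap.adjoint_inner_left T y x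

lemma Ta_inner' (x y : H) : inner ℂ x (Ta y) = inner ℂ (T x) y :=
  ContinuousLinearMap.adjoint_inner_right T x y

lemma Ta_norm (x : H) : ‖Ta x‖ ≤ ‖x‖ := by
  have h1 : ‖Ta x‖ ^ 2 ≤ ‖x‖ * ‖Ta x‖ := by
    rw [← inner_self_eq_norm_sq (𝕜 := ℂ), Ta_inner]
    refine (Complex.re_le_norm _).trans ((norm_inner_le_norm _ _).trans ?_)
    rw [T_norm]
  by_contra h
  push Not at h
  nlinarith [norm_nonneg x, norm_nonneg (Ta x)]

/-- basis vector -/
noncomputable def e (j : ℕ) : H := lp.single 2 j (1 : ℂ)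

lemma e_apply (j k : ℕ) : e j k = if k = j then 1 else 0 := by
  unfold e
  rw [lp.single_apply]
  by_cases h : k = j
  · subst h; simp
  · rw [if_neg h, Pi.single_eq_of_ne h]

lemma coord_eq (x : H) (j : ℕ) : x j = inner ℂ (e j) x := by
  unfold e
  rw [lp.inner_single_left]
  simp

lemma Te_apply (j k : ℕ) : T (e j) k = if j ≤ k then cf (k - j) else 0 := by
  rw [T_apply]
  simp only [e_apply, mul_ite, mul_one, mul_zero]
  split_ifs with h
  · rw [Finset.sum_eq_single j]
    · simp
    · intro b _ hb; rw [if_neg hb]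
    · intro h2; exact absurd (Finset.mem_range.2 (by omega)) h2
  · refine Finset.sum_eq_zero fun b hb => ?_
    rw [Finset.mem_range] at hb
    rw [if_neg (by omega)]

lemma Ta_hasSum (x : H) (j : ℕ) :
    HasSum (fun k => if j ≤ k then cf (k - j) * x k else 0) (Ta x j) := by
  have h := hasSum_inner' (T (e j)) x
  rw [← Ta_inner', ← coord_eq] at h
  have e1 : (fun k => if j ≤ k then cf (k - j) * x k else 0) =
      fun k => inner ℂ (T (e j) k) (x k) := by
    funext k
    simp only [Te_apply]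
    split_ifs
    · rw [RCLike.inner_apply, cf_real, mul_comm]
    · simp
  rw [e1]
  exact h

/-- the flip of the truncated Toeplitz operator -/
lemma flip_T (n : ℕ) (x : H) : W n (T (W n x)) = P n (Ta (P n x)) := by
  ext j
  rw [W_apply, P_apply]
  split_ifs with hj
  · rw [T_apply, ← (Ta_hasSum (P n x) j).tsum_eq]
    rw [tsum_eq_sum (s := Finset.Icc j n)]
    · refine Finset.sum_bij' (fun k _ => n - k) (fun k _ => n - k) ?_ ?_ ?_ ?_ ?_
      · intro k hk
        rw [Finset.mem_range] at hk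
        rw [Finset.mem_Icc]
        omega
      · intro k hk
        rw [Finset.mem_Icc] at hk
        rw [Finset.mem_range]
        omega
      · intro k hk
        rw [Finset.mem_range] at hk
        omega
      · intro k hk
        rw [Finset.mem_Icc] at hk
        omega
      · intro k hk
        rw [Finset.mem_range] at hk
        rw [W_apply, if_pos (by omega), if_pos (by omega), P_apply, if_pos (by omega)]
        congr 2
        omega
    · intro k hk
      rw [Finset.mem_Icc] at hk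
      rw [P_apply]
      by_cases h1 : j ≤ k
      · rw [if_pos h1, if_neg (by omega), mul_zero]
      · rw [if_neg h1]
  · rfl

lemma flip_Ta (n : ℕ) (x : H) : W n (Ta (W n x)) = P n (T (P n x)) := by
  have h := flip_T n (W n x)
  rw [WW, PW] at h
  have h2 := congrArg (W n) h
  rw [WW, WP] at h2
  exact h2.symm

end Pool.Agent.N293.FS
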