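import Mathlib
import Pool.Agent.N293.FS3

set_option autoImplicit false

open Filter Topology MeasureTheory

namespace Pool.Agent.N293.FS

lemma apply_tendsto {S : ℕ → H →L[ℂ] H} {S' : H →L[ℂ] H} {C : ℝ}
    (hS : ∀ x, Tendsto (fun n => S n x) atTop (𝓝 (S' x))) (hC : ∀ n x, ‖S n x‖ ≤ C * ‖x‖)
    {u : ℕ → H} {u' : H} (hu : Tendsto u atTop (𝓝 u')) :
    Tendsto (fun n => S n (u n)) atTop (𝓝 (S' u')) := by
  have h1 : Tendsto (fun n => S n (u n - u')) atTop (𝓝 0) := by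
    have h2 : Tendsto (fun n => C * ‖u n - u'‖) atTop (𝓝 0) := by
      have : Tendsto (fun n => C * ‖u n - u'‖) atTop (𝓝 (C * ‖u' - u'‖)) :=
        ((hu.sub_const u').norm).const_mul C
      simpa using this
    exact squeeze_zero_norm (fun n => hC n _) h2
  have h3 := h1.add (hS u')
  rw [zero_add] at h3
  refine h3.congr fun n => ?_
  rw [← map_add, sub_add_cancel]

lemma P_strong (x : H) : Tendsto (fun n => P n x) atTop (𝓝 ((1 : H →L[ℂ] H) x)) := P_tendsto x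

lemma P_bd (n : ℕ) (x : H) : ‖P n x‖ ≤ 1 * ‖x‖ := by rw [one_mul]; exact P_norm n x

/-- truncated Toeplitz matrix -/
noncomputable def L (n : ℕ) : H →L[ℂ] H := P n * T * P n

/-- truncated adjoint -/
noncomputable def La (n : ℕ) : H →L[ℂ] H := P n * Ta * P n

lemma L_apply (n : ℕ) (x : H) : L n x = P n (T (P n x)) := rfl
lemma La_apply (n : ℕ) (x : H) : La n x = P n (Ta (P n x)) := rfl

lemma L_norm (n : ℕ) (x : H) : ‖L n x‖ ≤ ‖x‖ := by
  rw [L_apply]
  exact (P_norm _ _).trans (by rw [T_norm]; exact P_norm _ _)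

lemma La_norm (n : ℕ) (x : H) : ‖La n x‖ ≤ ‖x‖ := by
  rw [La_apply]
  exact (P_norm _ _).trans ((Ta_norm _).trans (P_norm _ _))

lemma L_tendsto {u : ℕ → H} {u' : H} (hu : Tendsto u atTop (𝓝 u')) :
    Tendsto (fun n => L n (u n)) atTop (𝓝 (T u')) :=
  apply_tendsto P_strong P_bd ((T.continuous.tendsto _).comp (apply_tendsto P_strong P_bd hu))

lemma La_tendsto {u : ℕ → H} {u' : H} (hu : Tendsto u atTop (𝓝 u')) :
    Tendsto (fun n => La n (u n)) atTop (𝓝 (Ta u')) :=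
  apply_tendsto P_strong P_bd ((Ta.continuous.tendsto _).comp (apply_tendsto P_strong P_bd hu))

/-- `P_n - L_n L_n*` -/
noncomputable def X (n : ℕ) : H →L[ℂ] H := P n - L n * La n
/-- `P_n - L_n* L_n` -/
noncomputable def Y (n : ℕ) : H →L[ℂ] H := P n - La n * L n

lemma X_apply (n : ℕ) (x : H) : X n x = P n x - L n (La n x) := rfl
lemma Y_apply (n : ℕ) (x : H) : Y n x = P n x - La n (L n x) := rfl

lemma X_tendsto {u : ℕ → H} {u' : H} (hu : Tendsto u atTop (𝓝 u')) :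
    Tendsto (fun n => X n (u n)) atTop (𝓝 (u' - T (Ta u'))) :=
  (apply_tendsto P_strong P_bd hu).sub (L_tendsto (La_tendsto hu))

lemma Y_tendsto {u : ℕ → H} {u' : H} (hu : Tendsto u atTop (𝓝 u')) :
    Tendsto (fun n => Y n (u n)) atTop (𝓝 0) := by
  have h := (apply_tendsto P_strong P_bd hu).sub (La_tendsto (L_tendsto hu))
  rw [Ta_T] at h
  have e : (1 : H →L[ℂ] H) u' - u' = 0 := sub_self u'
  rw [e] at h
  exact h

lemma flip_X (n : ℕ) (x : H) : W n (X n (W n x)) = Y n x := by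
  rw [X_apply, Y_apply, map_sub, PW, WW, L_apply, WP, La_apply, PP, PW]
  congr 1
  rw [← WW n (Ta (W n x)), flip_Ta, ← L_apply]
  rw [flip_T n (L n x), ← La_apply]

lemma X_P (n : ℕ) (x : H) : X n (P n x) = X n x := by
  rw [X_apply, X_apply, PP, La_apply, La_apply, PP]

lemma P_X (n : ℕ) (x : H) : P n (X n x) = X n x := by
  rw [X_apply, map_sub, PP, L_apply, PP]

lemma flip_Y (n : ℕ) (x : H) : W n (Y n (W n x)) = X n x := by
  rw [← flip_X, WW, WW, X_P, P_X]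

lemma inner_L (n : ℕ) (x y : H) : inner ℂ (L n x) y = inner ℂ x (La n y) := by
  rw [L_apply, La_apply, inner_P, ← Ta_inner', inner_P]

lemma inner_La (n : ℕ) (x y : H) : inner ℂ (La n x) y = inner ℂ x (L n y) := by
  rw [L_apply, La_apply, inner_P, Ta_inner, inner_P]

lemma inner_X (n : ℕ) (x y : H) : inner ℂ (X n x) y = inner ℂ x (X n y) := by
  rw [X_apply, X_apply, inner_sub_left, inner_sub_right, inner_P, inner_L, inner_La]

/-- the sequence -/
noncomputable def A (n : ℕ) : H →L[ℂ] H := X n * Y n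

lemma A_apply (n : ℕ) (x : H) : A n x = X n (Y n x) := rfl

lemma A_tendsto (x : H) : Tendsto (fun n => A n x) atTop (𝓝 0) := by
  have h := X_tendsto (Y_tendsto (tendsto_const_nhds (x := x)))
  rw [map_zero, map_zero, sub_zero] at h
  exact h

lemma flip_A (n : ℕ) (x : H) : W n (A n (W n x)) = Y n (X n x) := by
  rw [A_apply]
  have h1 : Y n (W n x) = W n (X n x) := by
    have := congrArg (W n) (flip_Y n x)
    rw [WW] at this
    rw [← this, Y_apply, map_sub, PP, La_apply, PP]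
  rw [h1, flip_X]

lemma WAW_tendsto (x : H) : Tendsto (fun n => W n (A n (W n x))) atTop (𝓝 0) := by
  simp only [flip_A]
  exact Y_tendsto (X_tendsto (tendsto_const_nhds (x := x)))

section lower

lemma geo_sum {r : ℝ} (h0 : 0 ≤ r) (h1 : r < 1) :
    HasSum (fun i : ℕ => ‖(r : ℂ) ^ i‖ ^ 2) (1 - r ^ 2)⁻¹ := by
  have h : r ^ 2 < 1 := by nlinarith
  have := hasSum_geometric_of_lt_one (sq_nonneg r) h
  convert! this using 1
  funext i
  rw [norm_pow, Complex.norm_real, Real.norm_of_nonneg h0]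
  ring

/-- the vector `(r ^ j)` -/
noncomputable def ka (r : ℝ) (h0 : 0 ≤ r) (h1 : r < 1) : H :=
  mkH (fun j => (r : ℂ) ^ j) (1 - r ^ 2)⁻¹
    (fun s => sum_le_hasSum s (fun _ _ => by positivity) (geo_sum h0 h1))

variable {r : ℝ} (h0 : 0 ≤ r) (h1 : r < 1)

lemma ka_apply (j : ℕ) : ka r h0 h1 j = (r : ℂ) ^ j := rfl

lemma ka_norm : ‖ka r h0 h1‖ ^ 2 = (1 - r ^ 2)⁻¹ :=
  (hasSum_sq (ka r h0 h1)).unique (geo_sum h0 h1)

lemma Ta_ka : Ta (ka r h0 h1) = Gd r • ka r h0 h1 := by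
  ext j
  rw [lp.coeFn_smul, Pi.smul_apply, smul_eq_mul, ka_apply]
  refine (Ta_hasSum (ka r h0 h1) j).unique ?_
  have hinj : Function.Injective (fun m : ℕ => m + j) := fun a b h => by
    simp only at h; omega
  rw [← hinj.hasSum_iff]
  · have h := (hasSum_Gd h0 h1).mul_right ((r : ℂ) ^ j)
    have e : ((fun k => if j ≤ k then cf (k - j) * ka r h0 h1 k else 0) ∘ fun m => m + j) =
        fun m => cf m * (r : ℂ) ^ m * (r : ℂ) ^ j := by
      funext m
      simp only [Function.comp]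
      rw [if_pos (Nat.le_add_left _ _), Nat.add_sub_cancel, ka_apply, pow_add]
      ring
    rw [e]
    exact h
  · intro k hk
    rw [if_neg]
    intro h
    exact hk ⟨k - j, Nat.sub_add_cancel h⟩

lemma ka_tail (n : ℕ) : ‖ka r h0 h1 - P n (ka r h0 h1)‖ = r ^ (n + 1) * ‖ka r h0 h1‖ := by
  have hs := hasSum_sq (ka r h0 h1 - P n (ka r h0 h1))
  have hinj : Function.Injective (fun m : ℕ => m + (n + 1)) := fun a b h => by
    simp only at h; omega
  have h2 : HasSum (fun i => ‖(ka r h0 h1 - P n (ka r h0 h1)) i‖ ^ 2)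
      ((r ^ (n + 1)) ^ 2 * (1 - r ^ 2)⁻¹) := by
    rw [← hinj.hasSum_iff]
    · have h := (geo_sum h0 h1).mul_left ((r ^ (n + 1)) ^ 2)
      have e : ((fun i => ‖(ka r h0 h1 - P n (ka r h0 h1)) i‖ ^ 2) ∘ fun m => m + (n + 1)) =
          fun i => (r ^ (n + 1)) ^ 2 * ‖(r : ℂ) ^ i‖ ^ 2 := by
        funext m
        simp only [Function.comp]
        rw [lp.coeFn_sub, Pi.sub_apply, P_apply, if_neg (by omega), sub_zero, ka_apply, pow_add,
          norm_mul, mul_pow]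
        simp only [norm_pow, Complex.norm_real, Real.norm_of_nonneg h0]
        ring
      rw [e]
      exact h
    · intro k hk
      have hk' : k ≤ n := by
        by_contra h
        exact hk ⟨k - (n + 1), by simp only; omega⟩
      rw [lp.coeFn_sub, Pi.sub_apply, P_apply, if_pos hk', sub_self, norm_zero]
      ring
  have h3 : ‖ka r h0 h1 - P n (ka r h0 h1)‖ ^ 2 = (r ^ (n + 1) * ‖ka r h0 h1‖) ^ 2 := by
    rw [hs.unique h2, mul_pow, ka_norm]
  exact (sq_eq_sq₀ (norm_nonneg _) (by positivity)).1 h3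

lemma ka_inner (n : ℕ) : inner ℂ (P n (ka r h0 h1)) (W n (ka r h0 h1)) = ((n : ℂ) + 1) * (r : ℂ) ^ n := by
  rw [inner_eq, tsum_eq_sum (s := Finset.range (n + 1))]
  · have : ∀ k ∈ Finset.range (n + 1), inner ℂ (P n (ka r h0 h1) k) (W n (ka r h0 h1) k) =
        (r : ℂ) ^ n := by
      intro k hk
      rw [Finset.mem_range] at hk
      rw [P_apply, W_apply, if_pos (by omega), if_pos (by omega), ka_apply, ka_apply,
        RCLike.inner_apply]
      simp only [map_pow, Complex.conj_ofReal]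
      rw [← pow_add]
      congr 1
      omega
    rw [Finset.sum_congr rfl this, Finset.sum_const, Finset.card_range, nsmul_eq_mul]
    push_cast
    ring
  · intro k hk
    rw [Finset.mem_range] at hk
    rw [P_apply, if_neg (by omega), inner_zero_left]

include h0 h1 in
lemma A_lower (n : ℕ) : ((n : ℝ) + 1) * r ^ n * (1 - r ^ 2) - 2 * (‖Gd r‖ + r ^ (n + 1)) -
    (‖Gd r‖ + r ^ (n + 1)) ^ 2 ≤ ‖A n‖ := by
  set κ := ka r h0 h1 with hκ
  set δ := ‖Gd r‖ + r ^ (n + 1) with hδ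
  have hδ0 : 0 ≤ δ := by positivity
  set v := P n κ with hv
  set e' := - L n (La n v) with he'
  have hXv : X n v = v + e' := by
    rw [X_apply, hv, PP, he', sub_eq_add_neg]
  have he : ‖e'‖ ≤ δ * ‖κ‖ := by
    rw [he', norm_neg]
    refine (L_norm _ _).trans ?_
    rw [La_apply, hv, PP]
    refine (P_norm _ _).trans ?_
    have : P n κ = κ - (κ - P n κ) := by abel
    rw [this, map_sub, hκ, Ta_ka, ← hκ]
    refine (norm_sub_le _ _).trans ?_
    rw [norm_smul, hδ, add_mul]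
    gcongr
    refine (Ta_norm _).trans ?_
    rw [hκ, ka_tail]
  have hvn : ‖v‖ ≤ ‖κ‖ := P_norm _ _
  have hYW : Y n (W n v) = W n v + W n e' := by
    have h1 := flip_X n (W n v)
    rw [WW, X_P, hXv, map_add] at h1
    exact h1.symm
  have hin : inner ℂ v (A n (W n v)) = inner ℂ (v + e') (W n v + W n e') := by
    rw [A_apply, ← inner_X, hXv, hYW]
  have hup : ‖inner ℂ v (A n (W n v))‖ ≤ ‖A n‖ * ‖κ‖ ^ 2 := by
    refine (norm_inner_le_norm _ _).trans ?_
    have h2 : ‖A n (W n v)‖ ≤ ‖A n‖ * ‖κ‖ :=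
      ((A n).le_opNorm _).trans (by gcongr; exact (W_norm _ _).trans hvn)
    calc ‖v‖ * ‖A n (W n v)‖ ≤ ‖κ‖ * (‖A n‖ * ‖κ‖) := by gcongr
      _ = ‖A n‖ * ‖κ‖ ^ 2 := by ring
  have hWv : inner ℂ v (W n v) = ((n : ℂ) + 1) * (r : ℂ) ^ n := by
    rw [hv, WP, hκ, ka_inner]
  have hexp : inner ℂ v (W n v) = inner ℂ (v + e') (W n v + W n e') - inner ℂ v (W n e') -
      inner ℂ e' (W n v) - inner ℂ e' (W n e') := by
    rw [inner_add_left, inner_add_right, inner_add_right]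
    ring
  have hn1 : ‖inner ℂ v (W n e')‖ ≤ δ * ‖κ‖ ^ 2 := by
    refine (norm_inner_le_norm _ _).trans ?_
    calc ‖v‖ * ‖W n e'‖ ≤ ‖κ‖ * (δ * ‖κ‖) := by gcongr; exact (W_norm _ _).trans he
      _ = δ * ‖κ‖ ^ 2 := by ring
  have hn2 : ‖inner ℂ e' (W n v)‖ ≤ δ * ‖κ‖ ^ 2 := by
    refine (norm_inner_le_norm _ _).trans ?_
    calc ‖e'‖ * ‖W n v‖ ≤ (δ * ‖κ‖) * ‖κ‖ := by gcongr; exact (W_norm _ _).trans hvn
      _ = δ * ‖κ‖ ^ 2 := by ring
  have hn3 : ‖inner ℂ e' (W n e')‖ ≤ δ ^ 2 * ‖κ‖ ^ 2 := by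
    refine (norm_inner_le_norm _ _).trans ?_
    calc ‖e'‖ * ‖W n e'‖ ≤ (δ * ‖κ‖) * (δ * ‖κ‖) := by gcongr; exact (W_norm _ _).trans he
      _ = δ ^ 2 * ‖κ‖ ^ 2 := by ring
  have hlow : ((n : ℝ) + 1) * r ^ n ≤ ‖A n‖ * ‖κ‖ ^ 2 + 2 * δ * ‖κ‖ ^ 2 + δ ^ 2 * ‖κ‖ ^ 2 := by
    have h5 : ‖inner ℂ v (W n v)‖ = ((n : ℝ) + 1) * r ^ n := by
      rw [hWv, norm_mul, norm_pow, Complex.norm_real, Real.norm_of_nonneg h0]
      congr 1
      have : ((n : ℂ) + 1) = ((n + 1 : ℕ) : ℂ) := by push_cast; rfl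
      rw [this, Complex.norm_natCast]
      push_cast
      rfl
    rw [← h5, hexp]
    refine (norm_sub_le _ _).trans ?_
    have h6 := norm_sub_le (inner ℂ (v + e') (W n v + W n e') - inner ℂ v (W n e'))
      (inner ℂ e' (W n v))
    have h7 := norm_sub_le (inner ℂ (v + e') (W n v + W n e')) (inner ℂ v (W n e'))
    rw [← hin] at h6 h7 ⊢
    linarith
  have hk : ‖κ‖ ^ 2 = (1 - r ^ 2)⁻¹ := ka_norm h0 h1
  have hpos : 0 < 1 - r ^ 2 := by nlinarith
  rw [hk] at hlow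
  have h8 : ((n : ℝ) + 1) * r ^ n * (1 - r ^ 2) ≤ ‖A n‖ + 2 * δ + δ ^ 2 := by
    calc ((n : ℝ) + 1) * r ^ n * (1 - r ^ 2)
        ≤ (‖A n‖ * (1 - r ^ 2)⁻¹ + 2 * δ * (1 - r ^ 2)⁻¹ + δ ^ 2 * (1 - r ^ 2)⁻¹) * (1 - r ^ 2) := by
          gcongr
      _ = ‖A n‖ + 2 * δ + δ ^ 2 := by
          field_simp
  linarith

end lower

lemma A_big (p : ℕ) (hp : 40 ≤ p) : 1 / 32 ≤ ‖A (4 * p - 1)‖ := by
  have hpR : (40 : ℝ) ≤ p := by exact_mod_cast hp
  set r : ℝ := 1 - 1 / (2 * p) with hr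
  have hinv : (0 : ℝ) < 1 / (2 * p) := by positivity
  have hinv1 : (1 : ℝ) / (2 * p) ≤ 1 := by
    rw [div_le_one (by positivity)]; linarith
  have h0 : 0 ≤ r := by linarith
  have h1 : r < 1 := by linarith
  have hn : ((4 * p - 1 : ℕ) : ℝ) + 1 = 4 * p := by
    have : 1 ≤ 4 * p := by omega
    push_cast [Nat.cast_sub this]
    ring
  have hlow := A_lower h0 h1 (4 * p - 1)
  rw [hn] at hlow
  have hsucc : 4 * p - 1 + 1 = 4 * p := by omega
  rw [hsucc] at hlow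
  set s : ℝ := r ^ (4 * p - 1) with hs
  have hs4 : r ^ (4 * p) = r * s := by
    rw [hs, ← pow_succ', hsucc]
  have hs1 : s ≤ 1 := pow_le_one₀ h0 h1.le
  have hs0 : 0 ≤ s := by positivity
  have hbern : (1 : ℝ) / 2 ≤ r ^ p := by
    have := one_add_mul_le_pow (a := -(1 / (2 * (p : ℝ)))) (by linarith) p
    have e : (1 : ℝ) + p * -(1 / (2 * (p : ℝ))) = 1 / 2 := by
      field_simp
      norm_num
    rw [e, ← sub_eq_add_neg] at this
    exact this
  have h16 : (1 : ℝ) / 16 ≤ r ^ (4 * p) := by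
    have : r ^ (4 * p) = (r ^ p) ^ 4 := by rw [← pow_mul]; congr 1; ring
    rw [this]
    calc (1 : ℝ) / 16 = (1 / 2) ^ 4 := by norm_num
      _ ≤ (r ^ p) ^ 4 := by gcongr
  have hs16 : (1 : ℝ) / 16 ≤ s := by
    rw [hs4] at h16
    nlinarith
  have hg : ‖Gd r‖ ≤ 1 / 160 := by
    rw [norm_Gd]
    have e1 : (1 - Complex.normSq (r : ℂ)) / Complex.normSq (1 - (r : ℂ)) = 4 * p - 1 := by
      have e2 : (1 : ℂ) - (r : ℂ) = ((1 / (2 * p) : ℝ) : ℂ) := by
        rw [hr]; push_cast; ring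
      rw [e2, Complex.normSq_ofReal, Complex.normSq_ofReal, hr]
      field_simp
      ring
    rw [e1, Real.exp_neg]
    rw [inv_le_comm₀ (Real.exp_pos _) (by norm_num)]
    have := Real.add_one_le_exp (4 * (p : ℝ) - 1)
    norm_num
    linarith
  have hg0 := norm_nonneg (Gd r)
  set g := ‖Gd r‖
  have h12 : (4 * (p : ℝ)) * s * (1 - r ^ 2) = 2 * (1 + r) * s := by
    have : 1 - r ^ 2 = (1 / (2 * p)) * (1 + r) := by rw [hr]; ring
    rw [this]
    field_simp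
    ring
  rw [h12, hs4] at hlow
  nlinarith [mul_nonneg h0 hs0, mul_le_mul_of_nonneg_right h1.le hs0]

lemma A_not_null : ¬ Tendsto (fun n => ‖A n‖) atTop (𝓝 0) := by
  intro h
  have h2 : Tendsto (fun p : ℕ => ‖A (4 * p - 1)‖) atTop (𝓝 0) := by
    refine h.comp ?_
    refine tendsto_atTop_mono (f := fun p => p) (fun p => ?_) tendsto_id
    omega
  have h3 := (h2.eventually (gt_mem_nhds (show (0 : ℝ) < 1 / 32 by norm_num))).and
    (eventually_ge_atTop 40)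
  obtain ⟨p, hp1, hp2⟩ := h3.exists
  exact absurd (A_big p hp2) (not_le.2 hp1)

end Pool.Agent.N293.FS
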