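import Mathlib
import Pool.Agent.N293.FS4

set_option autoImplicit false

open Filter Topology MeasureTheory

namespace Pool.Agent.N293.FS

lemma vol_eq : (volume : Measure Ci) = AddCircle.haarAddCircle := by
  have h := AddCircle.volume_eq_smul_haarAddCircle (T := (1 : ℝ))
  rwa [ENNReal.ofReal_one, one_smul] at h

lemma fc_toLp (f : Ci → ℂ) (hf : MemLp f ⊤ (volume : Measure Ci)) :
    fourierCoeff (hf.toLp f : Ci → ℂ) = fourierCoeff f := by
  apply fourierCoeff_congr_ae
  rw [← vol_eq]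
  exact hf.coeFn_toLp

/-- the generating sequences -/
def Gen : Set (ℕ → (H →L[ℂ] H)) :=
  {G | ∃ a : Lp ℂ ⊤ (volume : Measure (AddCircle (1 : ℝ))), ∃ T : H →L[ℂ] H,
      (∀ j k : ℕ, (T (lp.single 2 k (1 : ℂ) : H)) j
        = fourierCoeff (⇑a : AddCircle (1 : ℝ) → ℂ) ((j : ℤ) - (k : ℤ))) ∧
      ∀ n, G n = P n * T * P n}

lemma memLp_gf : MemLp gf ⊤ (volume : Measure Ci) :=
  memLp_top_of_bound gf_meas.aestronglyMeasurable 1 (Eventually.of_forall fun t => (norm_gf t).le)

lemma memLp_conj : MemLp (fun t => starRingEnd ℂ (gf t)) ⊤ (volume : Measure Ci) :=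
  memLp_top_of_bound (Complex.continuous_conj.measurable.comp gf_meas).aestronglyMeasurable 1
    (Eventually.of_forall fun t => by rw [RCLike.norm_conj]; exact (norm_gf t).le)

lemma memLp_one : MemLp (fun _ : Ci => (1 : ℂ)) ⊤ (volume : Measure Ci) :=
  memLp_top_of_bound measurable_const.aestronglyMeasurable 1
    (Eventually.of_forall fun t => by simp)

lemma fc_one (n : ℤ) : fourierCoeff (fun _ : Ci => (1 : ℂ)) n = if n = 0 then 1 else 0 := by
  have := congrFun (fourierCoeff_fourier (T := (1 : ℝ)) 0) n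
  have e : (fun _ : Ci => (1 : ℂ)) = ⇑(fourier (T := (1 : ℝ)) 0) := by
    funext t
    simp
  rw [e, this]
  by_cases h : n = 0
  · rw [if_pos h, h, Pi.single_eq_same]
  · rw [if_neg h, Pi.single_eq_of_ne h]

lemma gen_P : (fun n => P n) ∈ Gen := by
  refine ⟨memLp_one.toLp _, 1, fun j k => ?_, fun n => ?_⟩
  · rw [fc_toLp, fc_one]
    have : ((1 : H →L[ℂ] H) (lp.single 2 k (1 : ℂ))) j = e k j := rfl
    rw [this, e_apply]
    by_cases h : j = k
    · rw [if_pos h, if_pos (by omega)]
    · rw [if_neg h, if_neg (by omega)]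
  · ext x : 1
    exact (PP n x).symm

lemma gen_L : (fun n => L n) ∈ Gen := by
  refine ⟨memLp_gf.toLp _, T, fun j k => ?_, fun n => rfl⟩
  rw [fc_toLp, fc_gf]
  have : (T (lp.single 2 k (1 : ℂ))) j = T (e k) j := rfl
  rw [this, Te_apply]
  by_cases h : k ≤ j
  · rw [if_pos h, if_pos (by omega)]
    congr 1
    omega
  · rw [if_neg h, if_neg (by omega)]

lemma gen_La : (fun n => La n) ∈ Gen := by
  refine ⟨memLp_conj.toLp _, Ta, fun j k => ?_, fun n => rfl⟩
  rw [fc_toLp, fc_conj, fc_gf]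
  have : (Ta (lp.single 2 k (1 : ℂ))) j = Ta (e k) j := rfl
  rw [this, ← (Ta_hasSum (e k) j).tsum_eq, tsum_eq_single k]
  · rw [e_apply, if_pos rfl, mul_one]
    by_cases h : j ≤ k
    · rw [if_pos h, if_pos (by omega)]
      congr 1
      omega
    · rw [if_neg h, if_neg (by omega)]
  · intro l hl
    rw [e_apply, if_neg hl, mul_zero]
    simp

lemma A_mem : (fun n => A n) ∈ NonUnitalAlgebra.adjoin ℂ Gen := by
  have hP := NonUnitalAlgebra.subset_adjoin ℂ gen_P
  have hL := NonUnitalAlgebra.subset_adjoin ℂ gen_L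
  have hLa := NonUnitalAlgebra.subset_adjoin ℂ gen_La
  exact mul_mem (sub_mem hP (mul_mem hL hLa)) (sub_mem hP (mul_mem hLa hL))

lemma no_decomp (K K' : H →L[ℂ] H) (hK : IsCompactOperator K) (hK' : IsCompactOperator K')
    (C : ℕ → (H →L[ℂ] H)) (hC : Tendsto (fun n => ‖C n‖) atTop (𝓝 0))
    (hA : ∀ n, A n = P n * K * P n + W n * K' * W n + C n) : False := by
  have hWb : ∀ (x : H) (n : ℕ), ‖W n x‖ ≤ ‖x‖ := fun x n => W_norm n x
  have hnull : ∀ (Q : H →L[ℂ] H), IsCompactOperator Q → ∀ x : H,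
      Tendsto (fun n => W n (Q (W n x))) atTop (𝓝 0) := by
    intro Q hQ x
    have h1 := compact_null hQ (hWb x) (W_coord x)
    rw [tendsto_zero_iff_norm_tendsto_zero] at h1 ⊢
    exact squeeze_zero (fun _ => norm_nonneg _) (fun n => W_norm _ _) h1
  have hCx : ∀ u : ℕ → H, ∀ M : ℝ, (∀ n, ‖u n‖ ≤ M) → Tendsto (fun n => C n (u n)) atTop (𝓝 0) := by
    intro u M hM
    have h2 : Tendsto (fun n => ‖C n‖ * M) atTop (𝓝 0) := by simpa using hC.mul_const M
    refine squeeze_zero_norm (fun n => ?_) h2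
    exact ((C n).le_opNorm _).trans (by gcongr; exact hM n)
  have hPQP : ∀ (Q : H →L[ℂ] H) (x : H), Tendsto (fun n => P n (Q (P n x))) atTop (𝓝 (Q x)) := by
    intro Q x
    have := apply_tendsto P_strong P_bd ((Q.continuous.tendsto _).comp (P_tendsto x))
    exact this
  have hK0 : ∀ x, K x = 0 := by
    intro x
    have h1 := ((hPQP K x).add (hnull K' hK' x)).add (hCx (fun _ => x) ‖x‖ (fun _ => le_rfl))
    rw [add_zero, add_zero] at h1
    have h2 : (fun n => P n (K (P n x)) + W n (K' (W n x)) + C n x) = fun n => A n x := by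
      funext n
      rw [hA]
      rfl
    rw [h2] at h1
    exact tendsto_nhds_unique h1 (A_tendsto x)
  have hK0' : ∀ x, K' x = 0 := by
    intro x
    have h3 : Tendsto (fun n => W n (C n (W n x))) atTop (𝓝 0) := by
      have h4 := hCx (fun n => W n x) ‖x‖ (hWb x)
      rw [tendsto_zero_iff_norm_tendsto_zero] at h4 ⊢
      exact squeeze_zero (fun _ => norm_nonneg _) (fun n => W_norm _ _) h4
    have h1 := ((hnull K hK x).add (hPQP K' x)).add h3
    rw [zero_add, add_zero] at h1
    have h2 : (fun n => W n (K (W n x)) + P n (K' (P n x)) + W n (C n (W n x))) =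
        fun n => W n (A n (W n x)) := by
      funext n
      rw [hA]
      have e : (P n * K * P n + W n * K' * W n + C n) (W n x) =
          P n (K (P n (W n x))) + W n (K' (W n (W n x))) + C n (W n x) := rfl
      rw [e, map_add, map_add, PW, WP, WW, WW]
    rw [h2] at h1
    exact tendsto_nhds_unique h1 (WAW_tendsto x)
  have hK00 : K = 0 := by ext x : 1; exact hK0 x
  have hK00' : K' = 0 := by ext x : 1; exact hK0' x
  apply A_not_null
  have : ∀ n, ‖A n‖ = ‖C n‖ := by
    intro n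
    rw [hA, hK00, hK00', mul_zero, mul_zero, zero_mul, zero_mul, zero_add, zero_add]
  simp only [this]
  exact hC

end Pool.Agent.N293.FS
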