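import Mathlib
import Pool.Agent.H100R3.TTO2

set_option autoImplicit false

open Matrix Set Module Pool.Agent.H100R3.TTO
open scoped ComplexOrder

namespace Pool.Agent.N293.TC

variable {n : ℕ}

section LA

variable (T : Matrix (Fin n) (Fin n) ℂ) (k : Fin n → ℂ)

/-- the Krylov vectors of the adjoint -/
noncomputable def kr (f : Fin n → ℂ) (j : ℕ) : Fin n → ℂ := (Tᴴ ^ j) *ᵥ f

lemma kr_zero (f : Fin n → ℂ) : kr T f 0 = f := by simp [kr]

lemma kr_succ (f : Fin n → ℂ) (j : ℕ) : kr T f (j + 1) = Tᴴ *ᵥ kr T f j := by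
  rw [kr, kr, pow_succ', Matrix.mulVec_mulVec]

lemma kr_add (f : Fin n → ℂ) (i j : ℕ) : kr T f (i + j) = (Tᴴ ^ i) *ᵥ kr T f j := by
  rw [kr, kr, pow_add, Matrix.mulVec_mulVec]

variable {T k}

lemma quad_id (hT : 1 - T * Tᴴ = Matrix.vecMulVec k (star k)) (x y : Fin n → ℂ) :
    star (Tᴴ *ᵥ x) ⬝ᵥ (Tᴴ *ᵥ y) = star x ⬝ᵥ y - (star x ⬝ᵥ k) * (star k ⬝ᵥ y) := by
  have h1 : star (Tᴴ *ᵥ x) ⬝ᵥ (Tᴴ *ᵥ y) = star x ⬝ᵥ ((T * Tᴴ) *ᵥ y) := by
    rw [Matrix.star_mulVec, Matrix.conjTranspose_conjTranspose, ← Matrix.dotProduct_mulVec,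
      Matrix.mulVec_mulVec]
  have h2 : T * Tᴴ = 1 - Matrix.vecMulVec k (star k) := by rw [← hT]; abel
  rw [h1, h2, Matrix.sub_mulVec, Matrix.one_mulVec, dotProduct_sub, Matrix.vecMulVec_mulVec,
    dotProduct_smul]
  simp only [op_smul_eq_smul, smul_eq_mul]
  ring

lemma quad_M {M : Matrix (Fin n) (Fin n) ℂ} {u v : Fin n → ℂ}
    (hM : M - T * M * Tᴴ = Matrix.vecMulVec u (star k) + Matrix.vecMulVec k (star v))
    (x y : Fin n → ℂ) :
    star (Tᴴ *ᵥ x) ⬝ᵥ (M *ᵥ (Tᴴ *ᵥ y)) = star x ⬝ᵥ (M *ᵥ y) -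
      (star x ⬝ᵥ u) * (star k ⬝ᵥ y) - (star x ⬝ᵥ k) * (star v ⬝ᵥ y) := by
  have h1 : star (Tᴴ *ᵥ x) ⬝ᵥ (M *ᵥ (Tᴴ *ᵥ y)) = star x ⬝ᵥ ((T * M * Tᴴ) *ᵥ y) := by
    rw [Matrix.star_mulVec, Matrix.conjTranspose_conjTranspose, ← Matrix.dotProduct_mulVec,
      Matrix.mulVec_mulVec, Matrix.mulVec_mulVec, Matrix.mul_assoc]
  have h2 : T * M * Tᴴ = M - (Matrix.vecMulVec u (star k) + Matrix.vecMulVec k (star v)) := by
    rw [← hM]; abel
  rw [h1, h2, Matrix.sub_mulVec, Matrix.add_mulVec, dotProduct_sub, dotProduct_add,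
    Matrix.vecMulVec_mulVec, Matrix.vecMulVec_mulVec, dotProduct_smul, dotProduct_smul]
  simp only [op_smul_eq_smul, smul_eq_mul]
  ring

/-- no nonzero vector has its whole orbit orthogonal to `k` -/
lemma orbit_zero (hT : 1 - T * Tᴴ = Matrix.vecMulVec k (star k))
    (hev : ∀ μ : ℂ, ∀ x : Fin n → ℂ, x ≠ 0 → T *ᵥ x = μ • x → ‖μ‖ < 1)
    (f : Fin n → ℂ) (hf : ∀ j, star k ⬝ᵥ kr T f j = 0) : f = 0 := by
  by_contra hne
  let V : Submodule ℂ (Fin n → ℂ) :=
    { carrier := {x | ∀ j, star k ⬝ᵥ kr T x j = 0}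
      zero_mem' := fun j => by simp [kr]
      add_mem' := fun {x y} hx hy j => by
        have h1 : star k ⬝ᵥ kr T x j = 0 := hx j
        have h2 : star k ⬝ᵥ kr T y j = 0 := hy j
        have h3 : kr T (x + y) j = kr T x j + kr T y j := by
          simp only [kr, Matrix.mulVec_add]
        rw [h3, dotProduct_add, h1, h2, add_zero]
      smul_mem' := fun c x hx j => by
        have h1 : star k ⬝ᵥ kr T x j = 0 := hx j
        have h3 : kr T (c • x) j = c • kr T x j := by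
          simp only [kr, Matrix.mulVec_smul]
        rw [h3, dotProduct_smul, h1, smul_zero] }
  have hinv : ∀ x ∈ V, (Matrix.toLin' Tᴴ) x ∈ V := by
    intro x hx j
    have h1 := hx (j + 1)
    rw [Matrix.toLin'_apply]
    have : kr T (Tᴴ *ᵥ x) j = kr T x (j + 1) := by
      rw [kr_add, kr_succ, kr_zero]
      rfl
    rw [this]
    exact h1
  have hnt : Nontrivial V := ⟨⟨⟨f, hf⟩, 0, fun h => hne (congrArg Subtype.val h)⟩⟩
  obtain ⟨lam, hlam⟩ := Module.End.exists_eigenvalue ((Matrix.toLin' Tᴴ).restrict hinv)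
  obtain ⟨x, hx⟩ := hlam.exists_hasEigenvector
  have hx1 : Tᴴ *ᵥ (x : Fin n → ℂ) = lam • (x : Fin n → ℂ) := by
    have := congrArg Subtype.val hx.apply_eq_smul
    simpa [LinearMap.coe_restrict_apply, Matrix.toLin'_apply] using this
  have hx0 : (x : Fin n → ℂ) ≠ 0 := fun h => hx.2 (Subtype.ext h)
  have hkx : star k ⬝ᵥ (x : Fin n → ℂ) = 0 := by
    have := x.2 0
    rwa [kr_zero] at this
  have hq := quad_id hT (x : Fin n → ℂ) (x : Fin n → ℂ)
  rw [hkx, mul_zero, sub_zero, hx1, star_smul, smul_dotProduct, dotProduct_smul] at hq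
  have hxx : star (x : Fin n → ℂ) ⬝ᵥ (x : Fin n → ℂ) ≠ 0 := by
    rw [ne_eq, dotProduct_star_self_eq_zero]
    exact hx0
  have hl : star lam * lam = 1 := by
    simp only [smul_eq_mul] at hq
    have : (star lam * lam - 1) * (star (x : Fin n → ℂ) ⬝ᵥ (x : Fin n → ℂ)) = 0 := by
      linear_combination hq
    rcases mul_eq_zero.1 this with h | h
    · linear_combination h
    · exact absurd h hxx
  have hnorm : ‖lam‖ = 1 := by
    have h1 : ‖star lam * lam‖ = 1 := by rw [hl]; simp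
    rw [norm_mul, norm_star] at h1
    nlinarith [norm_nonneg lam]
  have hdet : (Tᴴ - lam • (1 : Matrix (Fin n) (Fin n) ℂ)).det = 0 := by
    rw [← Matrix.exists_mulVec_eq_zero_iff]
    refine ⟨x, hx0, ?_⟩
    rw [Matrix.sub_mulVec, Matrix.smul_mulVec, Matrix.one_mulVec, hx1, sub_self]
  have hdet2 : (T - star lam • (1 : Matrix (Fin n) (Fin n) ℂ)).det = 0 := by
    have : (T - star lam • (1 : Matrix (Fin n) (Fin n) ℂ)) =
        (Tᴴ - lam • (1 : Matrix (Fin n) (Fin n) ℂ))ᴴ := by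
      rw [Matrix.conjTranspose_sub, Matrix.conjTranspose_conjTranspose, Matrix.conjTranspose_smul,
        Matrix.conjTranspose_one]
    rw [this, Matrix.det_conjTranspose, hdet, star_zero]
  obtain ⟨y, hy0, hy⟩ := Matrix.exists_mulVec_eq_zero_iff.2 hdet2
  rw [Matrix.sub_mulVec, Matrix.smul_mulVec, Matrix.one_mulVec, sub_eq_zero] at hy
  have := hev _ y hy0 hy
  rw [norm_star, hnorm] at this
  exact lt_irrefl _ this

/-- a vector whose first orbit points are orthogonal to `k` -/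
lemma exists_f (hn : 0 < n) : ∃ f : Fin n → ℂ, f ≠ 0 ∧ ∀ j, j + 1 < n → star k ⬝ᵥ kr T f j = 0 := by
  let Φ : (Fin n → ℂ) →ₗ[ℂ] (Fin (n - 1) → ℂ) :=
    { toFun := fun f j => star k ⬝ᵥ kr T f j
      map_add' := fun x y => by
        funext j
        simp only [kr, Matrix.mulVec_add, dotProduct_add, Pi.add_apply]
      map_smul' := fun c x => by
        funext j
        simp only [kr, Matrix.mulVec_smul, dotProduct_smul, Pi.smul_apply, RingHom.id_apply] }
  have hker : LinearMap.ker Φ ≠ ⊥ := by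
    apply LinearMap.ker_ne_bot_of_finrank_lt
    rw [finrank_fin_fun, finrank_fin_fun]
    omega
  obtain ⟨f, hf, hf0⟩ := Submodule.exists_mem_ne_zero_of_ne_bot hker
  refine ⟨f, hf0, fun j hj => ?_⟩
  have := congrFun (LinearMap.mem_ker.1 hf) ⟨j, by omega⟩
  exact this

end LA

/-- the Toeplitz structure hidden in Sarason's rank two criterion -/
lemma toeplitz_of_sarason (hn : 0 < n) (M T : Matrix (Fin n) (Fin n) ℂ) (k u v : Fin n → ℂ)
    (hT : 1 - T * Tᴴ = Matrix.vecMulVec k (star k))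
    (hev : ∀ μ : ℂ, ∀ x : Fin n → ℂ, x ≠ 0 → T *ᵥ x = μ • x → ‖μ‖ < 1)
    (hM : M - T * M * Tᴴ = Matrix.vecMulVec u (star k) + Matrix.vecMulVec k (star v)) :
    ∃ (S : Matrix (Fin n) (Σ _ : Fin 1, Fin n) ℂ) (g c : (Σ _ : Fin 1, Fin (2 * n)) → ℂ),
      Sᴴ * S = Tm (fun _ : Fin 1 => n) g ∧ Sᴴ * M * S = Tm (fun _ : Fin 1 => n) c ∧
      (Tm (fun _ : Fin 1 => n) g).det ≠ 0 := by
  obtain ⟨f, hf0, hf⟩ := exists_f (T := T) (k := k) hn
  have hf' : ∀ j, j + 1 < n → star (kr T f j) ⬝ᵥ k = 0 := by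
    intro j hj
    have := congrArg star (hf j hj)
    rw [star_zero, star_dotProduct, star_star] at this
    exact this
  let S : Matrix (Fin n) (Σ _ : Fin 1, Fin n) ℂ := Matrix.of fun x s => kr T f s.2 x
  -- general Toeplitz property
  have key : ∀ (Q : Matrix (Fin n) (Fin n) ℂ), (∀ i j, i + 1 < n → j + 1 < n →
      star (kr T f (i + 1)) ⬝ᵥ (Q *ᵥ kr T f (j + 1)) = star (kr T f i) ⬝ᵥ (Q *ᵥ kr T f j)) →
      ∃ g : (Σ _ : Fin 1, Fin (2 * n)) → ℂ, Sᴴ * Q * S = Tm (fun _ : Fin 1 => n) g := by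
    intro Q hQ
    have hshift : ∀ d i j, i + d < n → j + d < n →
        star (kr T f (i + d)) ⬝ᵥ (Q *ᵥ kr T f (j + d)) = star (kr T f i) ⬝ᵥ (Q *ᵥ kr T f j) := by
      intro d
      induction d with
      | zero => intro i j _ _; rfl
      | succ d ih =>
        intro i j hi hj
        rw [← Nat.add_assoc, ← Nat.add_assoc, hQ _ _ (by omega) (by omega), ih _ _ (by omega)
          (by omega)]
    refine ⟨fun s => if n ≤ (s.2 : ℕ) then star (kr T f 0) ⬝ᵥ (Q *ᵥ kr T f (s.2 - n)) else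
      star (kr T f (n - s.2)) ⬝ᵥ (Q *ᵥ kr T f 0), ?_⟩
    ext ⟨a, i⟩ ⟨b, j⟩
    have hab : a = b := Subsingleton.elim _ _
    subst hab
    unfold Tm
    rw [Matrix.blockDiagonal'_apply_eq, Matrix.of_apply]
    have e1 : (Sᴴ * Q * S) ⟨a, i⟩ ⟨a, j⟩ = star (kr T f i) ⬝ᵥ (Q *ᵥ kr T f j) := by
      rw [Matrix.mul_assoc, Matrix.mul_apply]
      simp only [dotProduct, Matrix.conjTranspose_apply, Matrix.mul_apply, Matrix.mulVec, S,
        Matrix.of_apply, Pi.star_apply]
    rw [e1]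
    by_cases hij : (i : ℕ) ≤ j
    · have h2 : n ≤ (j : ℕ) + n - i := by omega
      simp only
      rw [if_pos h2]
      have h3 := hshift i 0 (j - i) (by omega) (by omega)
      rw [Nat.zero_add, Nat.sub_add_cancel hij] at h3
      have e : (j : ℕ) + n - i - n = j - i := by omega
      rw [h3, e]
    · have h2 : ¬ n ≤ (j : ℕ) + n - i := by omega
      simp only
      rw [if_neg h2]
      have h3 := hshift j (i - j) 0 (by omega) (by omega)
      rw [Nat.zero_add, Nat.sub_add_cancel (by omega)] at h3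
      have e : n - ((j : ℕ) + n - i) = i - j := by omega
      rw [h3, e]
  obtain ⟨g, hg⟩ := key 1 (by
    intro i j hi hj
    rw [Matrix.one_mulVec, Matrix.one_mulVec, kr_succ, kr_succ, quad_id hT, hf j hj, mul_zero,
      sub_zero])
  obtain ⟨c, hc⟩ := key M (by
    intro i j hi hj
    rw [kr_succ, kr_succ, quad_M hM, hf j hj, hf' i hi, mul_zero, zero_mul, sub_zero, sub_zero])
  rw [Matrix.mul_one] at hg
  refine ⟨S, g, c, hg, hc, ?_⟩
  intro hdet
  rw [← hg] at hdet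
  obtain ⟨w, hw0, hw⟩ := Matrix.exists_mulVec_eq_zero_iff.2 hdet
  have hSw : S *ᵥ w = 0 := by
    have h1 : star (S *ᵥ w) ⬝ᵥ (S *ᵥ w) = 0 := by
      rw [Matrix.star_mulVec, ← Matrix.dotProduct_mulVec, Matrix.mulVec_mulVec, hw, dotProduct_zero]
    exact dotProduct_star_self_eq_zero.1 h1
  -- relation between Krylov vectors
  have hrel : ∑ j : Fin n, w ⟨0, j⟩ • kr T f j = 0 := by
    rw [← hSw]
    funext x
    rw [Finset.sum_apply, Matrix.mulVec, dotProduct, Fintype.sum_sigma, Fin.sum_univ_one]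
    refine Finset.sum_congr rfl fun j _ => ?_
    simp only [S, Matrix.of_apply, Pi.smul_apply, smul_eq_mul]
    ring
  have hrelm : ∀ m : ℕ, ∑ j : Fin n, w ⟨0, j⟩ • kr T f (m + j) = 0 := by
    intro m
    have := congrArg (fun z => (Tᴴ ^ m) *ᵥ z) hrel
    simp only [Matrix.mulVec_zero] at this
    rw [← this, Matrix.mulVec_sum]
    refine Finset.sum_congr rfl fun j _ => ?_
    rw [Matrix.mulVec_smul, kr_add]
  -- maximal index
  have hex : ∃ d : Fin n, w ⟨0, d⟩ ≠ 0 ∧ ∀ j : Fin n, d < j → w ⟨0, j⟩ = 0 := by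
    have hne : (Finset.univ.filter fun j : Fin n => w ⟨0, j⟩ ≠ 0).Nonempty := by
      by_contra h
      rw [Finset.not_nonempty_iff_eq_empty] at h
      apply hw0
      funext ⟨a, j⟩
      have ha : a = 0 := Subsingleton.elim _ _
      subst ha
      by_contra h2
      have : j ∈ (Finset.univ.filter fun j : Fin n => w ⟨0, j⟩ ≠ 0) := by
        rw [Finset.mem_filter]; exact ⟨Finset.mem_univ _, h2⟩
      rw [h] at this
      exact absurd this (Finset.notMem_empty _)
    refine ⟨(Finset.univ.filter fun j : Fin n => w ⟨0, j⟩ ≠ 0).max' hne,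
      (Finset.mem_filter.1 (Finset.max'_mem _ hne)).2, fun j hj => ?_⟩
    by_contra h2
    have := Finset.le_max' (Finset.univ.filter fun j : Fin n => w ⟨0, j⟩ ≠ 0) j
      (Finset.mem_filter.2 ⟨Finset.mem_univ j, h2⟩)
    exact absurd hj (not_lt.2 this)
  obtain ⟨d, hd, hdmax⟩ := hex
  apply hf0
  refine orbit_zero hT hev f fun i => ?_
  induction i using Nat.strong_induction_on with
  | _ i ih =>
    by_cases hi : i < d
    · exact hf i (by omega)
    · push Not at hi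
      have h1 := congrArg (fun z => star k ⬝ᵥ z) (hrelm (i - d))
      simp only [dotProduct_zero, dotProduct_sum, dotProduct_smul, smul_eq_mul] at h1
      rw [Finset.sum_eq_single d] at h1
      · rcases mul_eq_zero.1 h1 with h2 | h2
        · exact absurd h2 hd
        · rwa [Nat.sub_add_cancel hi] at h2
      · intro j _ hjd
        by_cases hlt : d < j
        · rw [hdmax j hlt, zero_mul]
        · have hj : (j : ℕ) < d := by
            have h3 : (j : ℕ) ≠ d := fun h => hjd (Fin.ext h)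
            have h4 : ¬ ((d : ℕ) < j) := hlt
            omega
          rw [ih (i - d + j) (by omega), mul_zero]
      · intro h; exact absurd (Finset.mem_univ _) h

end Pool.Agent.N293.TC
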