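import Mathlib
import Pool.Agent.N293.TC1

set_option autoImplicit false

open Matrix Set Module Pool.Agent.H100R3.TTO
open scoped ComplexOrder

namespace Pool.Agent.N293.TC

/-- distinct eigenvalues -/
noncomputable def hh (x : Fin 34) : ℂ := ((x : ℕ) : ℂ)

lemma hh_inj : Function.Injective hh := by
  intro x y h
  unfold hh at h
  exact Fin.ext (by exact_mod_cast h)

def i1 (j : Fin 17) : Fin 34 := ⟨j, by omega⟩
def i2 (j : Fin 17) : Fin 34 := ⟨17 + j, by omega⟩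

noncomputable def pq (s : Fin 17 × Fin 17) : Polynomial ℂ × Polynomial ℂ :=
  (Lagrange.basis Finset.univ hh (i1 s.1), Lagrange.basis Finset.univ hh (i2 s.2))

lemma eval_basis (x y : Fin 34) :
    (Lagrange.basis Finset.univ hh x).eval (hh y) = if x = y then 1 else 0 := by
  split_ifs with h
  · subst h
    exact Lagrange.eval_basis_self (hh_inj.injOn) (Finset.mem_univ _)
  · exact Lagrange.eval_basis_of_ne h (Finset.mem_univ _)

/-- the real symmetric matrix -/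
noncomputable def kk (t : Fin 17 × Fin 17 → ℝ) (x y : Fin 34) : ℝ :=
  if h : (x : ℕ) < 17 ∧ 17 ≤ (y : ℕ) then t (⟨x, h.1⟩, ⟨y - 17, by omega⟩)
  else if h : (y : ℕ) < 17 ∧ 17 ≤ (x : ℕ) then t (⟨y, h.1⟩, ⟨x - 17, by omega⟩) else 1

lemma kk_symm (t : Fin 17 × Fin 17 → ℝ) (x y : Fin 34) : kk t x y = kk t y x := by
  unfold kk
  by_cases h1 : (x : ℕ) < 17 ∧ 17 ≤ (y : ℕ)
  · have h2 : ¬ ((y : ℕ) < 17 ∧ 17 ≤ (x : ℕ)) := by omega
    rw [dif_pos h1, dif_neg h2, dif_pos h1]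
  · by_cases h2 : (y : ℕ) < 17 ∧ 17 ≤ (x : ℕ)
    · rw [dif_neg h1, dif_pos h2, dif_pos h2]
    · rw [dif_neg h1, dif_neg h2, dif_neg h2, dif_neg h1]

lemma kk_val (t : Fin 17 × Fin 17 → ℝ) (s : Fin 17 × Fin 17) :
    kk t (i1 s.1) (i2 s.2) = t s := by
  unfold kk i1 i2
  rw [dif_pos ⟨s.1.2, by simp⟩]
  congr 2
  ext
  simp

lemma kk_pos {t : Fin 17 × Fin 17 → ℝ} (ht : ∀ s, 1 ≤ t s) (x y : Fin 34) : 0 < kk t x y := by
  unfold kk
  split_ifs
  · exact lt_of_lt_of_le one_pos (ht _)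
  · exact lt_of_lt_of_le one_pos (ht _)
  · exact one_pos

lemma kk_cont (x y : Fin 34) : Continuous (fun t : Fin 17 × Fin 17 → ℝ => kk t x y) := by
  unfold kk
  split_ifs
  · exact continuous_apply _
  · exact continuous_apply _
  · exact continuous_const

noncomputable def KK (t : Fin 17 × Fin 17 → ℝ) : Matrix (Fin 34) (Fin 34) ℂ :=
  Matrix.of fun x y => ((kk t x y : ℝ) : ℂ)

lemma KK_T (t : Fin 17 × Fin 17 → ℝ) : (KK t)ᵀ = KK t := by
  ext x y
  simp only [KK, Matrix.transpose_apply, Matrix.of_apply]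
  rw [kk_symm]

lemma KK_H (t : Fin 17 × Fin 17 → ℝ) : (KK t)ᴴ = KK t := by
  ext x y
  simp only [KK, Matrix.conjTranspose_apply, Matrix.of_apply]
  rw [kk_symm]
  simp

lemma D_H : (Matrix.diagonal hh)ᴴ = Matrix.diagonal hh := by
  rw [Matrix.diagonal_conjTranspose]
  congr 1
  funext x
  simp [hh]

/-- the complex symmetric matrix -/
noncomputable def AA (ε : ℝ) (t : Fin 17 × Fin 17 → ℝ) : Matrix (Fin 34) (Fin 34) ℂ :=
  Matrix.diagonal hh + (Complex.I * (ε : ℂ)) • KK t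

lemma AA_T (ε : ℝ) (t : Fin 17 × Fin 17 → ℝ) : (AA ε t)ᵀ = AA ε t := by
  unfold AA
  rw [Matrix.transpose_add, Matrix.diagonal_transpose, Matrix.transpose_smul, KK_T]

lemma AA_H (ε : ℝ) (t : Fin 17 × Fin 17 → ℝ) :
    (AA ε t)ᴴ = Matrix.diagonal hh - (Complex.I * (ε : ℂ)) • KK t := by
  unfold AA
  rw [Matrix.conjTranspose_add, D_H, Matrix.conjTranspose_smul, KK_H]
  simp [sub_eq_add_neg]

lemma re_part (ε : ℝ) (t : Fin 17 × Fin 17 → ℝ) :
    (1 / 2 : ℂ) • (AA ε t + (AA ε t)ᴴ) = Matrix.diagonal hh := by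
  rw [AA_H, AA]
  ext x y
  simp only [Matrix.smul_apply, Matrix.add_apply, Matrix.sub_apply, smul_eq_mul]
  ring

lemma im_part (ε : ℝ) (t : Fin 17 × Fin 17 → ℝ) :
    (1 / (2 * Complex.I) : ℂ) • (AA ε t - (AA ε t)ᴴ) = (ε : ℂ) • KK t := by
  have hI := Complex.I_ne_zero
  rw [AA_H, AA]
  ext x y
  simp only [Matrix.smul_apply, Matrix.add_apply, Matrix.sub_apply, smul_eq_mul]
  field_simp
  ring

lemma aeval_diag {J : Type*} [Fintype J] [DecidableEq J] (d : J → ℂ) (p : Polynomial ℂ) :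
    Polynomial.aeval (Matrix.diagonal d) p = Matrix.diagonal (fun x => p.eval (d x)) := by
  have h := Polynomial.aeval_algHom_apply (Matrix.diagonalAlgHom ℂ (n := J) (α := ℂ)) d p
  have e1 : (Matrix.diagonalAlgHom ℂ (n := J) (α := ℂ)) d = Matrix.diagonal d := rfl
  rw [e1] at h
  rw [h]
  have e2 : Polynomial.aeval d p = fun x => p.eval (d x) := by
    funext x
    rw [Polynomial.aeval_pi_apply₂]
    simp
  rw [e2]
  rfl

lemma trace_val (ε : ℝ) (t : Fin 17 × Fin 17 → ℝ) (s : Fin 17 × Fin 17) :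
    (Matrix.trace (Polynomial.aeval (Matrix.diagonal hh) (pq s).1 *
      ((ε : ℂ) • KK t) * Polynomial.aeval (Matrix.diagonal hh) (pq s).2 *
      ((ε : ℂ) • KK t))).re = (ε * t s) ^ 2 := by
  rw [aeval_diag, aeval_diag]
  have hent : ∀ (u w : Fin 34 → ℂ) (M : Matrix (Fin 34) (Fin 34) ℂ),
      Matrix.trace (Matrix.diagonal u * M * Matrix.diagonal w * M) =
        ∑ x, ∑ y, u x * M x y * w y * M y x := by
    intro u w M
    simp only [Matrix.trace, Matrix.diag_apply]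
    refine Finset.sum_congr rfl fun x _ => ?_
    rw [Matrix.mul_apply]
    refine Finset.sum_congr rfl fun y _ => ?_
    rw [Matrix.mul_diagonal, Matrix.diagonal_mul]
  rw [hent]
  simp only [pq, eval_basis]
  rw [Finset.sum_eq_single (i1 s.1)]
  · rw [Finset.sum_eq_single (i2 s.2)]
    · simp only [if_true, one_mul, mul_one]
      simp only [KK, Matrix.of_apply, Matrix.smul_apply, smul_eq_mul]
      rw [kk_symm t (i2 s.2), kk_val, ← Complex.ofReal_mul, ← Complex.ofReal_mul, Complex.ofReal_re]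
      ring
    · intro b _ hb
      rw [if_neg (Ne.symm hb)]; simp
    · simp
  · intro b _ hb
    refine Finset.sum_eq_zero fun y _ => ?_
    rw [if_neg (Ne.symm hb)]; simp
  · simp

/-- two nonzero eigenvectors that are orthogonal -/
def Orth (M : Matrix (Fin 34) (Fin 34) ℂ) : Prop :=
  ∃ x y : Fin 34 → ℂ, ∃ a b : ℂ, x ≠ 0 ∧ y ≠ 0 ∧
    M *ᵥ x = a • x ∧ M *ᵥ y = b • y ∧ star x ⬝ᵥ y = 0

lemma AA_mulVec (ε : ℝ) (t : Fin 17 × Fin 17 → ℝ) (x : Fin 34 → ℂ) (i : Fin 34) :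
    (AA ε t *ᵥ x) i = hh i * x i + Complex.I * ε * (KK t *ᵥ x) i := by
  rw [AA, Matrix.add_mulVec, Matrix.smul_mulVec, Pi.add_apply, Matrix.mulVec_diagonal,
    Pi.smul_apply, smul_eq_mul]

/-- the compact set of normalised data -/
def ZZ : Set (ℝ × (Fin 17 × Fin 17 → ℝ) × (Fin 34 → ℂ) × (Fin 34 → ℂ)) :=
  {z | z.1 ∈ Icc (0 : ℝ) 1 ∧ (∀ s, z.2.1 s ∈ Icc (1 : ℝ) 2) ∧ ‖z.2.2.1‖ = 1 ∧ ‖z.2.2.2‖ = 1 ∧
    (∀ i j, z.2.2.1 i * (hh j * z.2.2.1 j + Complex.I * z.1 * ∑ l, (kk z.2.1 j l : ℂ) * z.2.2.1 l) =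
      z.2.2.1 j * (hh i * z.2.2.1 i + Complex.I * z.1 * ∑ l, (kk z.2.1 i l : ℂ) * z.2.2.1 l)) ∧
    (∀ i j, z.2.2.2 i * (hh j * z.2.2.2 j + Complex.I * z.1 * ∑ l, (kk z.2.1 j l : ℂ) * z.2.2.2 l) =
      z.2.2.2 j * (hh i * z.2.2.2 i + Complex.I * z.1 * ∑ l, (kk z.2.1 i l : ℂ) * z.2.2.2 l)) ∧
    (∑ l, star (z.2.2.1 l) * z.2.2.2 l = 0) ∧
    (∑ i, ∑ j, star (z.2.2.1 i) * (kk z.2.1 i j : ℂ) * z.2.2.2 j = 0)}

lemma kkc (x y : Fin 34) : Continuous
    (fun z : ℝ × (Fin 17 × Fin 17 → ℝ) × (Fin 34 → ℂ) × (Fin 34 → ℂ) => (kk z.2.1 x y : ℂ)) :=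
  Complex.continuous_ofReal.comp ((kk_cont x y).comp (continuous_fst.comp continuous_snd))

lemma ZZ_closed : IsClosed ZZ := by
  have c1 : ∀ i, Continuous (fun z : ℝ × (Fin 17 × Fin 17 → ℝ) × (Fin 34 → ℂ) × (Fin 34 → ℂ) =>
      z.2.2.1 i) := fun i => by fun_prop
  have c2 : ∀ i, Continuous (fun z : ℝ × (Fin 17 × Fin 17 → ℝ) × (Fin 34 → ℂ) × (Fin 34 → ℂ) =>
      z.2.2.2 i) := fun i => by fun_prop
  have c0 : Continuous (fun z : ℝ × (Fin 17 × Fin 17 → ℝ) × (Fin 34 → ℂ) × (Fin 34 → ℂ) =>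
      (z.1 : ℂ)) := by fun_prop
  have cs1 : ∀ i, Continuous (fun z : ℝ × (Fin 17 × Fin 17 → ℝ) × (Fin 34 → ℂ) × (Fin 34 → ℂ) =>
      ∑ l, (kk z.2.1 i l : ℂ) * z.2.2.1 l) := fun i =>
    continuous_finsetSum _ fun l _ => (kkc i l).mul (c1 l)
  have cs2 : ∀ i, Continuous (fun z : ℝ × (Fin 17 × Fin 17 → ℝ) × (Fin 34 → ℂ) × (Fin 34 → ℂ) =>
      ∑ l, (kk z.2.1 i l : ℂ) * z.2.2.2 l) := fun i =>
    continuous_finsetSum _ fun l _ => (kkc i l).mul (c2 l)
  unfold ZZ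
  simp only [Set.ofPred_and, Set.ofPred_forall]
  refine IsClosed.inter ?_ (IsClosed.inter ?_ (IsClosed.inter ?_ (IsClosed.inter ?_
    (IsClosed.inter ?_ (IsClosed.inter ?_ (IsClosed.inter ?_ ?_))))))
  · exact isClosed_Icc.preimage continuous_fst
  · refine isClosed_iInter fun s => ?_
    exact isClosed_Icc.preimage (by fun_prop :
      Continuous fun z : ℝ × (Fin 17 × Fin 17 → ℝ) × (Fin 34 → ℂ) × (Fin 34 → ℂ) => z.2.1 s)
  · exact isClosed_eq (by fun_prop) continuous_const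
  · exact isClosed_eq (by fun_prop) continuous_const
  · refine isClosed_iInter fun i => isClosed_iInter fun j => ?_
    refine isClosed_eq ?_ ?_
    · exact (c1 i).mul ((continuous_const.mul (c1 j)).add ((continuous_const.mul c0).mul (cs1 j)))
    · exact (c1 j).mul ((continuous_const.mul (c1 i)).add ((continuous_const.mul c0).mul (cs1 i)))
  · refine isClosed_iInter fun i => isClosed_iInter fun j => ?_
    refine isClosed_eq ?_ ?_
    · exact (c2 i).mul ((continuous_const.mul (c2 j)).add ((continuous_const.mul c0).mul (cs2 j)))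
    · exact (c2 j).mul ((continuous_const.mul (c2 i)).add ((continuous_const.mul c0).mul (cs2 i)))
  · exact isClosed_eq (continuous_finsetSum _ fun l _ => ((c1 l).star).mul (c2 l)) continuous_const
  · exact isClosed_eq (continuous_finsetSum _ fun i _ => continuous_finsetSum _ fun j _ =>
      (((c1 i).star).mul (kkc i j)).mul (c2 j)) continuous_const

lemma ZZ_compact : IsCompact ZZ := by
  have hK : IsCompact ((Icc (0 : ℝ) 1) ×ˢ ((Set.pi univ fun _ : Fin 17 × Fin 17 => Icc (1 : ℝ) 2) ×ˢ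
      ((Metric.closedBall (0 : Fin 34 → ℂ) 1) ×ˢ (Metric.closedBall (0 : Fin 34 → ℂ) 1)))) :=
    isCompact_Icc.prod ((isCompact_univ_pi fun _ => isCompact_Icc).prod
      ((isCompact_closedBall _ _).prod (isCompact_closedBall _ _)))
  refine hK.of_isClosed_subset ZZ_closed ?_
  rintro ⟨ε, t, x, y⟩ ⟨h1, h2, h3, h4, -⟩
  refine ⟨h1, fun s _ => h2 s, ?_, ?_⟩
  · rw [mem_closedBall_zero_iff]; exact h3.le
  · rw [mem_closedBall_zero_iff]; exact h4.le

lemma single_of (x : Fin 34 → ℂ) (hx : ‖x‖ = 1)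
    (h : ∀ i j, x i * (hh j * x j) = x j * (hh i * x i)) :
    ∃ p, x p ≠ 0 ∧ ∀ i, i ≠ p → x i = 0 := by
  have hx0 : x ≠ 0 := fun h => by rw [h, norm_zero] at hx; exact zero_ne_one hx
  obtain ⟨p, hp⟩ := Function.ne_iff.1 hx0
  refine ⟨p, hp, fun i hi => ?_⟩
  have h1 := h i p
  have h2 : (hh p - hh i) * (x i * x p) = 0 := by linear_combination h1
  rcases mul_eq_zero.1 h2 with h3 | h3
  · exact absurd (hh_inj (sub_eq_zero.1 h3)).symm hi
  · rcases mul_eq_zero.1 h3 with h4 | h4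
    · exact h4
    · exact absurd h4 hp

lemma zero_notMem : (0 : ℝ) ∉ Prod.fst '' ZZ := by
  rintro ⟨⟨ε, t, x, y⟩, ⟨h1, h2, h3, h4, h5, h6, h7, h8⟩, h0⟩
  simp only at h0 h1 h2 h3 h4 h5 h6 h7 h8
  subst h0
  simp only [Complex.ofReal_zero, mul_zero, zero_mul, add_zero] at h5 h6
  obtain ⟨p, hp, hp'⟩ := single_of x h3 h5
  obtain ⟨q, hq, hq'⟩ := single_of y h4 h6
  have hpq : p ≠ q := by
    rintro rfl
    rw [Finset.sum_eq_single p] at h7
    · rcases mul_eq_zero.1 h7 with h | h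
      · exact hp (star_eq_zero.1 h)
      · exact hq h
    · intro b _ hb
      rw [hq' b hb, mul_zero]
    · simp
  rw [Finset.sum_eq_single p] at h8
  · rw [Finset.sum_eq_single q] at h8
    · rcases mul_eq_zero.1 h8 with h | h
      · rcases mul_eq_zero.1 h with h | h
        · exact hp (star_eq_zero.1 h)
        · have := kk_pos (fun s => (h2 s).1) p q
          rw [Complex.ofReal_eq_zero] at h
          linarith
      · exact hq h
    · intro b _ hb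
      rw [hq' b hb, mul_zero]
    · simp
  · intro b _ hb
    refine Finset.sum_eq_zero fun j _ => ?_
    rw [hp' b hb, star_zero, zero_mul, zero_mul]
  · simp

/-- for small positive `ε` no two eigenvectors are orthogonal -/
lemma exists_eps : ∃ ε : ℝ, 0 < ε ∧ ∀ t : Fin 17 × Fin 17 → ℝ, (∀ s, t s ∈ Icc (1 : ℝ) 2) →
    ¬ Orth (AA ε t) := by
  have hcl : IsClosed (Prod.fst '' ZZ) := (ZZ_compact.image continuous_fst).isClosed
  obtain ⟨δ, hδ, hball⟩ := Metric.isOpen_iff.1 hcl.isOpen_compl 0 zero_notMem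
  refine ⟨min (δ / 2) 1, by positivity, ?_⟩
  intro t ht ⟨x, y, a, b, hx0, hy0, hx, hy, hxy⟩
  set ε := min (δ / 2) 1 with hε
  have hε0 : 0 < ε := by positivity
  have hmem : ε ∈ Metric.ball (0 : ℝ) δ := by
    rw [mem_ball_zero_iff, Real.norm_of_nonneg hε0.le]
    exact lt_of_le_of_lt (min_le_left _ _) (half_lt_self hδ)
  apply hball hmem
  have hnx : ‖x‖ ≠ 0 := norm_ne_zero_iff.2 hx0
  have hny : ‖y‖ ≠ 0 := norm_ne_zero_iff.2 hy0
  -- orthogonality for K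
  have hK : ∑ i, ∑ j, star (x i) * (kk t i j : ℂ) * y j = 0 := by
    have h1 : star x ⬝ᵥ (AA ε t *ᵥ y) = 0 := by rw [hy, dotProduct_smul, hxy, smul_zero]
    have h2 : star x ⬝ᵥ ((AA ε t)ᴴ *ᵥ y) = 0 := by
      have : star x ⬝ᵥ ((AA ε t)ᴴ *ᵥ y) = star (AA ε t *ᵥ x) ⬝ᵥ y := by
        rw [Matrix.star_mulVec, ← Matrix.dotProduct_mulVec]
      rw [this, hx, star_smul, smul_dotProduct, hxy, smul_zero]
    have h3 : star x ⬝ᵥ (KK t *ᵥ y) = 0 := by
      rw [AA_H] at h2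
      rw [AA] at h1
      rw [Matrix.add_mulVec, dotProduct_add, Matrix.smul_mulVec, dotProduct_smul] at h1
      rw [Matrix.sub_mulVec, dotProduct_sub, Matrix.smul_mulVec, dotProduct_smul] at h2
      have h4 : (Complex.I * (ε : ℂ)) * (star x ⬝ᵥ (KK t *ᵥ y)) = 0 := by
        simp only [smul_eq_mul] at h1 h2
        linear_combination (h1 - h2) / 2
      rcases mul_eq_zero.1 h4 with h5 | h5
      · exfalso
        rcases mul_eq_zero.1 h5 with h6 | h6
        · exact Complex.I_ne_zero h6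
        · rw [Complex.ofReal_eq_zero] at h6
          exact hε0.ne' h6
      · exact h5
    rw [← h3]
    simp only [dotProduct, Matrix.mulVec, KK, Matrix.of_apply, Pi.star_apply, Finset.mul_sum]
    refine Finset.sum_congr rfl fun i _ => Finset.sum_congr rfl fun j _ => ?_
    ring
  have hpar : ∀ (z : Fin 34 → ℂ) (c : ℂ), AA ε t *ᵥ z = c • z → ∀ r : ℂ, ∀ i j,
      (r * z i) * (hh j * (r * z j) + Complex.I * ε * ∑ l, (kk t j l : ℂ) * (r * z l)) =
      (r * z j) * (hh i * (r * z i) + Complex.I * ε * ∑ l, (kk t i l : ℂ) * (r * z l)) := by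
    intro z c hz r i j
    have hz' : ∀ i, hh i * z i + Complex.I * ε * ∑ l, (kk t i l : ℂ) * z l = c * z i := by
      intro i
      have h1 := congrFun hz i
      rw [AA_mulVec, Pi.smul_apply, smul_eq_mul] at h1
      rw [← h1]
      simp only [Matrix.mulVec, dotProduct, KK, Matrix.of_apply]
    have hs : ∀ i, hh i * (r * z i) + Complex.I * ε * ∑ l, (kk t i l : ℂ) * (r * z l) =
        r * (c * z i) := by
      intro i
      rw [← hz' i]
      have : ∑ l, (kk t i l : ℂ) * (r * z l) = r * ∑ l, (kk t i l : ℂ) * z l := by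
        rw [Finset.mul_sum]
        exact Finset.sum_congr rfl fun l _ => by ring
      rw [this]
      ring
    rw [hs, hs]
    ring
  refine ⟨(ε, t, fun i => ((‖x‖⁻¹ : ℝ) : ℂ) * x i, fun i => ((‖y‖⁻¹ : ℝ) : ℂ) * y i),
    ⟨⟨hε0.le, min_le_right _ _⟩, ht, ?_, ?_, ?_, ?_, ?_, ?_⟩, rfl⟩
  · have : (fun i => ((‖x‖⁻¹ : ℝ) : ℂ) * x i) = ((‖x‖⁻¹ : ℝ) : ℂ) • x := rfl
    simp only [this]
    rw [norm_smul, Complex.norm_real, norm_inv, norm_norm, inv_mul_cancel₀ hnx]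
  · have : (fun i => ((‖y‖⁻¹ : ℝ) : ℂ) * y i) = ((‖y‖⁻¹ : ℝ) : ℂ) • y := rfl
    simp only [this]
    rw [norm_smul, Complex.norm_real, norm_inv, norm_norm, inv_mul_cancel₀ hny]
  · exact hpar x a hx _
  · exact hpar y b hy _
  · have h1 : ∑ l, star (x l) * y l = 0 := hxy
    have h2 : ∀ l, star (((‖x‖⁻¹ : ℝ) : ℂ) * x l) * (((‖y‖⁻¹ : ℝ) : ℂ) * y l) =
        (((‖x‖⁻¹ : ℝ) : ℂ) * ((‖y‖⁻¹ : ℝ) : ℂ)) * (star (x l) * y l) := by
      intro l
      rw [star_mul', Complex.star_def, Complex.conj_ofReal]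
      ring
    simp only [h2]
    rw [← Finset.mul_sum, h1, mul_zero]
  · have h2 : ∀ i j, star (((‖x‖⁻¹ : ℝ) : ℂ) * x i) * (kk t i j : ℂ) * (((‖y‖⁻¹ : ℝ) : ℂ) * y j) =
        (((‖x‖⁻¹ : ℝ) : ℂ) * ((‖y‖⁻¹ : ℝ) : ℂ)) * (star (x i) * (kk t i j : ℂ) * y j) := by
      intro i j
      rw [star_mul', Complex.star_def, Complex.conj_ofReal]
      ring
    simp only [h2]
    simp only [← Finset.mul_sum]
    rw [hK, mul_zero]

lemma finrank_par : finrank ℝ (Par (fun _ : Fin 1 => 34)) = 274 := by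
  unfold Par
  rw [finrank_prod, finrank_prod, finrank_pi_fintype, Complex.finrank_real_complex]
  simp only [Finset.sum_const, Finset.card_univ, Fintype.card_sigma, Fintype.card_fin]
  norm_num

lemma dense_compl : Dense (range (Phi (fun _ : Fin 1 => 34) pq))ᶜ := by
  apply ContDiff.dense_compl_range_of_finrank_lt_finrank (Phi_cd _ pq)
  rw [finrank_par, finrank_fintype_fun_eq_card]
  simp only [Fintype.card_prod, Fintype.card_fin]
  norm_num

theorem main : ∃ M : Matrix (Fin 34) (Fin 34) ℂ, Mᵀ = M ∧ ¬ Orth M ∧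
    ¬ ∃ T : Matrix (Fin 34) (Fin 34) ℂ, ∃ k u v : Fin 34 → ℂ,
        1 - T * Tᴴ = Matrix.vecMulVec k (star k) ∧
        (∀ μ : ℂ, ∀ x : Fin 34 → ℂ, x ≠ 0 → T *ᵥ x = μ • x → ‖μ‖ < 1) ∧
        M - T * M * Tᴴ = Matrix.vecMulVec u (star k) + Matrix.vecMulVec k (star v) := by
  obtain ⟨ε, hε, horth⟩ := exists_eps
  have hopen : IsOpen {τ : Fin 17 × Fin 17 → ℝ | ∀ s, τ s ∈ Ioo (ε ^ 2) (4 * ε ^ 2)} := by
    have : {τ : Fin 17 × Fin 17 → ℝ | ∀ s, τ s ∈ Ioo (ε ^ 2) (4 * ε ^ 2)} =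
        ⋂ s, {τ | τ s ∈ Ioo (ε ^ 2) (4 * ε ^ 2)} := by
      ext τ; simp
    rw [this]
    exact isOpen_iInter_of_finite fun s => isOpen_Ioo.preimage (continuous_apply s)
  obtain ⟨τ, hτ1, hτ2⟩ := dense_compl.inter_open_nonempty _ hopen
    ⟨fun _ => 2 * ε ^ 2, fun s => by
      have : 0 < ε ^ 2 := by positivity
      exact ⟨by linarith, by linarith⟩⟩
  set t : Fin 17 × Fin 17 → ℝ := fun s => √(τ s) / ε with ht
  have hτ1' : ∀ s, τ s ∈ Ioo (ε ^ 2) (4 * ε ^ 2) := hτ1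
  have htm : ∀ s, t s ∈ Icc (1 : ℝ) 2 := by
    intro s
    have h1 := (hτ1' s).1
    have h2 := (hτ1' s).2
    constructor
    · rw [ht, le_div_iff₀ hε, one_mul]
      exact Real.le_sqrt_of_sq_le h1.le
    · rw [ht, div_le_iff₀ hε]
      rw [Real.sqrt_le_left (by positivity)]
      nlinarith
  refine ⟨AA ε t, AA_T ε t, horth t htm, ?_⟩
  rintro ⟨T, k, u, v, hT, hev, hM⟩
  obtain ⟨S, g, c, hG, hC, hdet⟩ := toeplitz_of_sarason (by norm_num) _ T k u v hT hev hM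
  apply hτ2
  refine ⟨(g, c, ((Tm (fun _ : Fin 1 => 34) g).det)⁻¹), ?_⟩
  have hcard : Fintype.card (Fin 34) = Fintype.card (Σ i : Fin 1, Fin ((fun _ : Fin 1 => 34) i)) := by
    simp only [Fintype.card_fin, Fintype.card_sigma, Finset.sum_const, Finset.card_univ]
    norm_num
  funext s
  rw [main_id hcard S (AA ε t) g c hdet hG hC pq s, re_part, im_part, trace_val]
  rw [ht]
  have h1 : 0 ≤ τ s := le_trans (by positivity) (hτ1' s).1.le
  rw [mul_div_cancel₀ _ hε.ne', Real.sq_sqrt h1]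

end Pool.Agent.N293.TC
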